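import Pool.Agent.Mg.Fd2168f.G7e429c
import Pool.Agent.MP_d2168f_ag.Defs

section

/-!
The descent: a reflection lowers the order of the pole at one point and creates no new pole.
-/

namespace Pool.Agent.MP_d2168f_ag

variable {K A F : Type*} [Field K] [CommRing A] [Algebra K A] [Field F] [Algebra A F]

/-- every proper ideal vanishes at a rational point -/
def Pts (K A : Type*) [Field K] [CommRing A] [Algebra K A] : Prop :=
  ∀ I : Ideal A, I ≠ ⊤ → ∃ φ : A →ₐ[K] K, I ≤ pt φ

lemma Pts.one_mem (h : Pts K A) {I : Ideal A} (hI : ∀ φ : A →ₐ[K] K, ∃ a ∈ I, φ a ≠ 0) :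
    (1 : A) ∈ I := by
  by_contra h1
  obtain ⟨φ, hφ⟩ := h I (fun h => h1 (h ▸ Submodule.mem_top))
  obtain ⟨a, ha, ha'⟩ := hI φ
  exact ha' (hφ ha)

lemma Pts.int (h : Pts K A) {r : F}
    (hr : ∀ φ : A →ₐ[K] K, ∃ a, φ a ≠ 0 ∧ Int A (algebraMap A F a * r)) : Int A r := by
  have := h.one_mem (I := den A fun _ : Unit => r) fun φ => by
    obtain ⟨a, ha, har⟩ := hr φ
    exact ⟨a, fun _ => har, ha⟩
  simpa using this ()

lemma eval_rel [Algebra K F] [IsScalarTower K A F] {ι : Type*} (u : ι → F) (d : A) (a : ι → A)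
    (ha : ∀ i, algebraMap A F (a i) = algebraMap A F d * u i) (ψ : A →ₐ[K] K) (η : ι → K)
    (hη : ∀ i, ψ (a i) = ψ d * η i) (Φ : MvPolynomial ι K) :
    ∃ N, ∃ c : A, algebraMap A F c = algebraMap A F d ^ N * MvPolynomial.aeval u Φ ∧
      ψ c = ψ d ^ N * MvPolynomial.eval η Φ := by
  induction Φ using MvPolynomial.induction_on with
  | C r => exact ⟨0, algebraMap K A r, by simp [← IsScalarTower.algebraMap_apply], by simp⟩
  | add p q hp hq =>
    obtain ⟨N, c, h1, h2⟩ := hp
    obtain ⟨M, c', h1', h2'⟩ := hq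
    refine ⟨N + M, d ^ M * c + d ^ N * c', ?_, ?_⟩
    · simp only [map_add, map_mul, map_pow, h1, h1']; ring
    · simp only [map_add, map_mul, map_pow, h2, h2']; ring
  | mul_X p i hp =>
    obtain ⟨N, c, h1, h2⟩ := hp
    refine ⟨N + 1, c * a i, ?_, ?_⟩
    · simp only [map_mul, h1, ha, MvPolynomial.aeval_X]; ring
    · simp only [map_mul, h2, hη, MvPolynomial.eval_X]; ring

lemma fg_uniform [IsNoetherianRing A] (z : A →ₐ[K] K) (D : Ideal A) (W : F)
    (h : ∀ d ∈ D, ∃ a, z a ≠ 0 ∧ Int A (algebraMap A F a * (algebraMap A F d * W))) :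
    ∃ a, z a ≠ 0 ∧ ∀ d ∈ D, Int A (algebraMap A F d * (algebraMap A F a * W)) := by
  classical
  obtain ⟨S, hS⟩ := (IsNoetherian.noetherian D : D.FG)
  have h' : ∀ d, ∃ a, z a ≠ 0 ∧
      (d ∈ D → Int A (algebraMap A F a * (algebraMap A F d * W))) := by
    intro d
    by_cases hd : d ∈ D
    · obtain ⟨a, ha, had⟩ := h d hd
      exact ⟨a, ha, fun _ => had⟩
    · exact ⟨1, by simp, fun h => absurd h hd⟩
  choose a ha had using h'
  refine ⟨∏ d ∈ S, a d, ?_, ?_⟩
  · rw [map_prod]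
    exact Finset.prod_ne_zero_iff.mpr fun d _ => ha d
  · have : D ≤ den A fun _ : Unit => algebraMap A F (∏ d ∈ S, a d) * W := by
      rw [← hS, Submodule.span_le]
      intro d hd _
      have hdD : d ∈ D := hS ▸ Submodule.subset_span hd
      rw [← Finset.mul_prod_erase S a hd, map_mul]
      have := (Int.map (F := F) (∏ x ∈ S.erase d, a x)).mul (had d hdD)
      convert this using 1
      ring
    exact fun d hd => this hd ()

variable [IsDomain A] [IsFractionRing A F]

lemma Param.loc {z : A →ₐ[K] K} {g π : A} {k : ℕ} (h : Param z g k π) {N : ℕ} {r : F}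
    (h1 : Int A (algebraMap A F (π ^ N) * r)) (h2 : Int A (algebraMap A F g * r)) :
    ∃ a, z a ≠ 0 ∧ Int A (algebraMap A F a * r) := by
  obtain ⟨r1, hr1⟩ := h1
  obtain ⟨r2, hr2⟩ := h2
  have e : g * r1 = π ^ N * r2 := by
    apply IsFractionRing.injective A F
    rw [map_mul, map_mul, hr1, hr2]
    ring
  obtain ⟨a, ha, w, hw⟩ := h.pow_dvd N r1 ⟨r2, e⟩
  refine ⟨a, ha, w, ?_⟩
  have hπ : algebraMap A F (π ^ N) ≠ 0 := by simpa using fun h0 => absurd h0 h.ne
  apply mul_left_cancel₀ hπ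
  rw [← map_mul, ← hw, map_mul, hr1]
  ring

lemma Param.glob (hP : Pts K A) {z : A →ₐ[K] K} {g π : A} {k : ℕ} (h : Param z g k π)
    {D : Ideal A} (hg : g ∈ D) (hbad : ∀ φ : A →ₐ[K] K, D ≤ pt φ → φ π = 0 → φ = z) {N : ℕ}
    {r : F} (h1 : Int A (algebraMap A F (π ^ N) * r))
    (h2 : ∀ d ∈ D, Int A (algebraMap A F d ^ 2 * r)) : Int A r := by
  refine hP.int fun φ => ?_
  by_cases hφ : φ π = 0
  swap
  · exact ⟨π ^ N, by simpa using fun h0 => absurd h0 hφ, h1⟩
  by_cases hD : D ≤ pt φ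
  swap
  · obtain ⟨d, hd, hd'⟩ := SetLike.not_le_iff_exists.mp hD
    exact ⟨d ^ 2, by simpa using hd', by simpa using h2 d hd⟩
  obtain rfl := hbad φ hD hφ
  obtain ⟨a, ha, har⟩ := h.loc (N := N) (r := algebraMap A F g * r)
    (by convert (Int.map g).mul h1 using 1; ring) (by convert h2 g hg using 1; ring)
  obtain ⟨a', ha', har'⟩ := h.loc (N := N) (r := algebraMap A F a * r)
    (by convert (Int.map a).mul h1 using 1; ring) (by convert har using 1; ring)
  exact ⟨a' * a, by simp [ha, ha'], by rw [map_mul, mul_assoc]; exact har'⟩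

lemma Param.approx [IsNoetherianRing A] (hP : Pts K A) {z : A →ₐ[K] K} {g π : A} {k : ℕ}
    (h : Param z g k π) (hk : 1 ≤ k) {D : Ideal A} (hg0 : g ≠ 0)
    (hbad : ∀ φ : A →ₐ[K] K, D ≤ pt φ → φ π = 0 → φ = z) {j : ℕ} {r : F}
    (hr : ∀ d ∈ D, Int A (algebraMap A F d * r)) {v x₀ : A}
    (hv : algebraMap A F v = algebraMap A F g * r) (hx₀ : v - g * x₀ ∈ pt z ^ (k + j)) :
    ∃ x : A, ∃ w : F, (∀ d ∈ D, Int A (algebraMap A F d * w)) ∧
      r = algebraMap A F x + algebraMap A F (π ^ (j + 1)) * w := by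
  let J : Ideal A :=
    { carrier := {a | ∃ x : A, ∃ w : F, (∀ d ∈ D, Int A (algebraMap A F d * w)) ∧
        algebraMap A F a * r = algebraMap A F x + algebraMap A F (π ^ (j + 1)) * w}
      add_mem' := by
        rintro a b ⟨x, w, hw, hx⟩ ⟨x', w', hw', hx'⟩
        refine ⟨x + x', w + w', fun d hd => ?_, ?_⟩
        · rw [mul_add]; exact (hw d hd).add (hw' d hd)
        · rw [map_add, map_add, add_mul, hx, hx']; ring
      zero_mem' := ⟨0, 0, fun d _ => ⟨0, by simp⟩, by simp⟩
      smul_mem' := by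
        rintro c a ⟨x, w, hw, hx⟩
        refine ⟨c * x, algebraMap A F c * w, fun d hd => ?_, ?_⟩
        · convert (Int.map c).mul (hw d hd) using 1; ring
        · rw [smul_eq_mul, map_mul, map_mul, mul_assoc, hx]; ring }
  suffices h1 : (1 : A) ∈ J by
    obtain ⟨x, w, hw, hx⟩ := h1
    exact ⟨x, w, hw, by simpa using hx⟩
  refine hP.one_mem fun φ => ?_
  by_cases hφ : φ π = 0
  swap
  · exact ⟨π ^ (j + 1), ⟨0, r, hr, by simp⟩, by simpa using hφ⟩
  by_cases hD : D ≤ pt φ
  swap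
  · obtain ⟨d, hd, hd'⟩ := SetLike.not_le_iff_exists.mp hD
    obtain ⟨x, hx⟩ := hr d hd
    exact ⟨d, ⟨x, 0, fun d _ => ⟨0, by simp⟩, by simp [hx]⟩, hd'⟩
  obtain rfl := hbad φ hD hφ
  obtain ⟨a, ha, x, y, hxy⟩ := h.gen_pow hk j _ hx₀
  have hg' : algebraMap A F g ≠ 0 := by simpa using hg0
  set W : F := algebraMap A F y / algebraMap A F g with hW
  have hgW : algebraMap A F g * W = algebraMap A F y := by rw [hW]; field_simp
  have hbW : algebraMap A F (π ^ (j + 1)) * W
      = algebraMap A F a * r - algebraMap A F (a * x₀ + x) := by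
    apply mul_left_cancel₀ hg'
    have := congrArg (algebraMap A F) hxy
    simp only [map_mul, map_add, map_sub] at this ⊢
    linear_combination algebraMap A F (π ^ (j + 1)) * hgW - this + algebraMap A F a * hv
  obtain ⟨a', ha', hW'⟩ := fg_uniform φ D W fun d hd => h.loc (N := j + 1)
    (by
      have := ((Int.map a).mul (hr d hd)).sub ((Int.map (F := F) d).mul (Int.map (a * x₀ + x)))
      convert this using 1
      linear_combination algebraMap A F d * hbW)
    (by
      have := (Int.map (F := F) d).mul (Int.map y)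
      convert this using 1
      linear_combination algebraMap A F d * hgW)
  refine ⟨a' * a, ⟨a' * (a * x₀ + x), algebraMap A F a' * W, hW', ?_⟩, by simp [ha, ha']⟩
  rw [map_mul, map_mul]
  linear_combination -algebraMap A F a' * hbW

omit [IsDomain A] [IsFractionRing A F] in
lemma reflect {n : ℕ} {e u : Fin n → F} {x : Fin n → A} {f b : A}
    (he : ∀ i, e i = algebraMap A F (x i) + algebraMap A F b * u i)
    (hf : ∑ i, e i ^ 2 = algebraMap A F f) {D : Ideal A} (hDu : D ≤ den A u)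
    (H : ∀ r : F, Int A (algebraMap A F b ^ 2 * r) →
      (∀ d ∈ D, Int A (algebraMap A F d ^ 2 * r)) → Int A r) (hq : ∑ i, u i ^ 2 ≠ 0) :
    ∃ e' : Fin n → F, ∑ i, e' i ^ 2 = algebraMap A F f ∧
      ∀ d ∈ D, ∃ d' ∈ den A e', algebraMap A F d' = algebraMap A F d * ∑ i, u i ^ 2 := by
  set q := ∑ i, u i ^ 2 with hqdef
  set β := algebraMap A F b
  set p := ∑ i, u i * algebraMap A F (x i) with hpdef
  set s := ∑ i, algebraMap A F (x i) ^ 2 with hsdef
  have hs : Int A s := Int.sum _ fun i _ => ⟨x i ^ 2, by simp⟩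
  have h2 : Int A (2 : F) := ⟨2, map_ofNat _ 2⟩
  have hexp : algebraMap A F f = s + 2 * β * p + β ^ 2 * q := by
    rw [← hf, hsdef, hpdef, hqdef, Finset.mul_sum, Finset.mul_sum, ← Finset.sum_add_distrib,
      ← Finset.sum_add_distrib]
    refine Finset.sum_congr rfl fun i _ => ?_
    rw [he i]; ring
  have hdq : ∀ d ∈ D, Int A (algebraMap A F d ^ 2 * q) := by
    intro d hd
    rw [hqdef, Finset.mul_sum]
    refine Int.sum _ fun i _ => ?_
    convert (hDu hd i).mul (hDu hd i) using 1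
    ring
  have hdp : ∀ d ∈ D, Int A (algebraMap A F d * p) := by
    intro d hd
    rw [hpdef, Finset.mul_sum]
    refine Int.sum _ fun i _ => ?_
    convert (hDu hd i).mul (Int.map (x i)) using 1
    ring
  set c := -2 * p - β * q with hcdef
  have hc : Int A c := by
    refine H c ?_ fun d hd => ?_
    · have := (Int.map b).mul (hs.sub (Int.map f))
      convert this using 1
      rw [hexp, hcdef]; ring
    · have := ((h2.mul ((Int.map d).mul (hdp d hd))).neg).sub ((Int.map b).mul (hdq d hd))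
      convert this using 1
      rw [hcdef]; ring
  have hd' : ∀ d ∈ D, Int A (algebraMap A F d * q) := by
    intro d hd
    refine H _ ?_ fun d' hd' => ?_
    · have := ((Int.map d).mul ((Int.map f).sub hs)).sub (h2.mul ((Int.map b).mul (hdp d hd)))
      convert this using 1
      rw [hexp]; ring
    · convert (Int.map d).mul (hdq d' hd') using 1
      ring
  refine ⟨fun i => algebraMap A F (x i) + c / q * u i, ?_, fun d hd => ?_⟩
  · have : ∑ i, (algebraMap A F (x i) + c / q * u i) ^ 2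
        = s + 2 * (c / q) * p + (c / q) ^ 2 * q := by
      rw [hsdef, hpdef]
      conv_rhs => rw [hqdef]
      rw [Finset.mul_sum, Finset.mul_sum, ← Finset.sum_add_distrib, ← Finset.sum_add_distrib]
      refine Finset.sum_congr rfl fun i _ => ?_
      ring
    rw [this, hexp, hcdef]
    field_simp
    ring
  · obtain ⟨d', hd''⟩ := hd' d hd
    refine ⟨d', fun i => ?_, hd''⟩
    have := ((Int.map d').mul (Int.map (x i))).add (hc.mul (hDu hd i))
    convert this using 1
    rw [hd'']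
    field_simp

omit [IsDomain A] [IsFractionRing A F] in
lemma exists_level [IsNoetherianRing A] (z : A →ₐ[K] K) {n k : ℕ} {g : A} {v : Fin n → A}
    (hv : ∀ i, v i ∈ pt z ^ k) (hne : ∀ a, z a ≠ 0 → ¬ ∀ i, g ∣ a * v i) :
    ∃ j, (∃ x : Fin n → A, ∀ i, v i - g * x i ∈ pt z ^ (k + j)) ∧
      ¬ ∃ x : Fin n → A, ∀ i, v i - g * x i ∈ pt z ^ (k + (j + 1)) := by
  classical
  by_contra hcon
  push Not at hcon
  have hall : ∀ j, ∃ x : Fin n → A, ∀ i, v i - g * x i ∈ pt z ^ (k + j) := by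
    intro j
    induction j with
    | zero => exact ⟨0, by simpa using hv⟩
    | succ j ih => exact hcon j ih
  have h1 : ∀ i, ∃ a, z a ≠ 0 ∧ a * v i ∈ Ideal.span {g} := fun i => krull z fun N => by
    obtain ⟨x, hx⟩ := hall N
    have : v i = g * x i + (v i - g * x i) := by ring
    rw [this]
    exact Submodule.add_mem_sup (Ideal.mul_mem_right _ _ (Ideal.mem_span_singleton_self g))
      (Ideal.pow_le_pow_right (by omega) (hx i))
  choose a ha hav using h1
  refine hne (∏ i, a i) ?_ fun i => ?_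
  · rw [map_prod]
    exact Finset.prod_ne_zero_iff.mpr fun i _ => ha i
  · rw [← Finset.prod_erase_mul Finset.univ a (Finset.mem_univ i), mul_assoc]
    exact Dvd.dvd.mul_left (Ideal.mem_span_singleton.mp (hav i)) _

end Pool.Agent.MP_d2168f_ag

end

section

/-!
The descent step, the induction, and the abstract main theorem.
-/

namespace Pool.Agent.MP_d2168f_ag

variable {K A F : Type*} [Field K] [CommRing A] [Algebra K A] [Field F] [Algebra A F]
  [Algebra K F] [IsScalarTower K A F] [IsDomain A] [IsFractionRing A F] [IsNoetherianRing A]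

omit [Algebra K F] [IsScalarTower K A F] [IsDomain A] [IsNoetherianRing A] in
lemma num_sq' {n : ℕ} {u : Fin n → F} {d d' : A} {U : Fin n → A}
    (hU : ∀ i, algebraMap A F (U i) = algebraMap A F d * u i)
    (hd' : algebraMap A F d' = algebraMap A F d * ∑ i, u i ^ 2) : ∑ i, U i ^ 2 = d * d' := by
  apply IsFractionRing.injective A F
  simp only [map_sum, map_pow, map_mul, hU, mul_pow, hd']
  rw [← Finset.mul_sum]
  ring

lemma step (hK : RealF K) (hP : Pts K A) {n : ℕ} (hn : 0 < n)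
    (hdep : ∀ u : Fin n → F, ¬ AlgebraicIndependent K u) {e : Fin n → F} {f : A}
    (hf : ∑ i, e i ^ 2 = algebraMap A F f) (Z : Finset (A →ₐ[K] K))
    (hZ : ∀ φ ∈ Z, ∃ s t, Reg2 φ s t) (κ : (A →ₐ[K] K) → ℕ)
    (hgood : ∀ φ ∉ Z, ¬ den A e ≤ pt φ) (hκ : ∀ φ ∈ Z, ¬ den A e ≤ pt φ ^ (κ φ + 1))
    {z : A →ₐ[K] K} (hz : z ∈ Z) (hk : 1 ≤ κ z) (hDz : den A e ≤ pt z ^ κ z) :
    ∃ e' : Fin n → F, ∑ i, e' i ^ 2 = algebraMap A F f ∧ (∀ φ ∉ Z, ¬ den A e' ≤ pt φ) ∧
      (∀ φ ∈ Z, φ ≠ z → ¬ den A e' ≤ pt φ ^ (κ φ + 1)) ∧ ¬ den A e' ≤ pt z ^ κ z := by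
  classical
  have := hK.infinite
  obtain ⟨k, hkdef⟩ : ∃ k, κ z = k + 1 := ⟨κ z - 1, by omega⟩
  rw [hkdef] at hDz
  obtain ⟨s, t, hst⟩ := hZ z hz
  obtain ⟨g, hgD, hg'⟩ := SetLike.not_le_iff_exists.mp (hκ z hz)
  rw [hkdef] at hg'
  have hg : g ∈ pt z ^ (k + 1) := hDz hgD
  have hg0 : g ≠ 0 := fun h => hg' (h ▸ zero_mem _)
  have hgF : algebraMap A F g ≠ 0 := by simpa using hg0
  choose v hv using hgD
  have hgD : g ∈ den A e := fun i => ⟨v i, hv i⟩
  have hvk : ∀ i, v i ∈ pt z ^ (k + 1) := by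
    refine hst.sq hK ?_
    rw [num_sq hf hv]
    refine Ideal.mul_mem_right _ _ (Ideal.pow_le_pow_right (n := 2 * (k + 1)) (by omega) ?_)
    rw [mul_comm, pow_mul]
    exact Ideal.pow_mem_pow hg 2
  obtain ⟨j, ⟨x₀, hx₀⟩, hmax⟩ := exists_level z (g := g) hvk (by
    intro a ha hdvd
    apply ha
    refine Ideal.pow_le_self (Nat.succ_ne_zero k) (hDz fun i => ?_)
    obtain ⟨w, hw⟩ := hdvd i
    refine ⟨w, mul_left_cancel₀ hgF ?_⟩
    rw [← map_mul, ← hw, map_mul, hv]
    ring)
  obtain ⟨π, hπ, hπZ⟩ := hst.exists_param hg hg' (Z.erase z) (by simp)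
  have hbad : ∀ φ : A →ₐ[K] K, den A e ≤ pt φ → φ π = 0 → φ = z := by
    intro φ hφ h0
    by_contra hne
    have hφZ : φ ∈ Z := by
      by_contra h
      exact hgood φ h hφ
    exact hπZ φ (Finset.mem_erase.mpr ⟨hne, hφZ⟩) h0
  choose x u hu hxu using fun i => hπ.approx hP (by omega) hg0 hbad (r := e i)
    (fun d hd => hd i) (hv i) (hx₀ i)
  -- the algebraic relation
  obtain ⟨Φ, hΦ, hΦ0⟩ : ∃ Φ : MvPolynomial (Fin n) K, MvPolynomial.aeval u Φ = 0 ∧ Φ ≠ 0 := by
    by_contra hcon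
    push Not at hcon
    exact hdep u (algebraicIndependent_iff.mpr hcon)
  let i₀ : Fin n := ⟨0, hn⟩
  -- the excluded constants
  have hexc : ∀ ψ : A →ₐ[K] K, ∃ c : K, ψ ∈ Z → ∃ d ∈ den A e, ∃ l ≤ κ ψ, d ∈ pt ψ ^ l ∧
      ∀ (U : A) (c' : K), algebraMap A F U = algebraMap A F d * (u i₀ - algebraMap K F c') →
        U ∈ pt ψ ^ (l + 1) → c' = c := by
    intro ψ
    by_cases hψ : ψ ∈ Z
    swap
    · exact ⟨0, fun h => absurd h hψ⟩
    obtain ⟨d, hd, hd'⟩ := SetLike.not_le_iff_exists.mp (hκ ψ hψ)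
    obtain ⟨l, hl, hdl, hdl'⟩ := exists_order _ hd'
    by_cases hex : ∃ (U : A) (c : K),
        algebraMap A F U = algebraMap A F d * (u i₀ - algebraMap K F c) ∧ U ∈ pt ψ ^ (l + 1)
    · obtain ⟨U, c, hU, hU'⟩ := hex
      refine ⟨c, fun _ => ⟨d, hd, l, hl, hdl, fun U' c' hU1 hU2 => ?_⟩⟩
      by_contra hne
      apply hdl'
      refine cancel_unit' ψ (a := algebraMap K A (c' - c)) (by simpa using sub_ne_zero.mpr hne) ?_
      have : algebraMap K A (c' - c) * d = U - U' := by
        apply IsFractionRing.injective A F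
        rw [map_mul, map_sub (algebraMap A F), hU, hU1, ← IsScalarTower.algebraMap_apply, map_sub]
        ring
      rw [this]
      exact Ideal.sub_mem _ hU' hU2
    · exact ⟨0, fun _ => ⟨d, hd, l, hl, hdl, fun U c' h1 h2 => absurd ⟨U, c', h1, h2⟩ hex⟩⟩
  choose cc hcc using hexc
  obtain ⟨η, hη⟩ : ∃ η : Fin n → K, MvPolynomial.eval η
      (Φ * ∏ ψ ∈ Z, (MvPolynomial.X i₀ - MvPolynomial.C (cc ψ))) ≠ 0 := by
    by_contra hcon
    push Not at hcon
    have h0 := MvPolynomial.funext (q := 0) (fun η => (hcon η).trans (by simp))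
    rcases mul_eq_zero.mp h0 with h | h
    · exact hΦ0 h
    · obtain ⟨ψ, -, hψ⟩ := Finset.prod_eq_zero_iff.mp h
      have := congrArg (MvPolynomial.eval fun _ => cc ψ + 1) hψ
      simp at this
  rw [map_mul, map_prod] at hη
  have hη1 : MvPolynomial.eval η Φ ≠ 0 := left_ne_zero_of_mul hη
  have hη2 : ∀ ψ ∈ Z, η i₀ ≠ cc ψ := fun ψ hψ h => by
    have := Finset.prod_ne_zero_iff.mp (right_ne_zero_of_mul hη) ψ hψ
    simp [h] at this
  -- the shifted data
  set b := π ^ (j + 1) with hb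
  let x' : Fin n → A := fun i => x i + b * algebraMap K A (η i)
  let u' : Fin n → F := fun i => u i - algebraMap K F (η i)
  have he' : ∀ i, e i = algebraMap A F (x' i) + algebraMap A F b * u' i := by
    intro i
    rw [hxu i]
    simp only [x', u', map_add, map_mul, ← IsScalarTower.algebraMap_apply]
    ring
  have hDu' : den A e ≤ den A u' := by
    intro d hd i
    have := (hu i d hd).sub (Int.map (d * algebraMap K A (η i)))
    convert this using 1
    simp only [u', map_mul, ← IsScalarTower.algebraMap_apply]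
    ring
  choose U hU using hDu' hgD
  have hUz : ¬ ∀ i, U i ∈ pt z ^ (k + 1) := by
    intro hall
    refine hmax ⟨x', fun i => ?_⟩
    have : v i - g * x' i = U i * b := by
      apply IsFractionRing.injective A F
      rw [map_sub, map_mul, map_mul, hv, hU, he' i]
      ring
    rw [this, pow_add]
    exact Ideal.mul_mem_mul (hall i) (Ideal.pow_mem_pow hπ.mem _)
  have hq : ∑ i, u' i ^ 2 ≠ 0 := by
    intro h0
    apply hUz
    refine hst.sq hK ?_
    rw [num_sq' (d' := 0) hU (by simp [h0])]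
    simp
  obtain ⟨e', he'f, hden⟩ := reflect he' hf hDu' (fun r h1 h2 =>
    hπ.glob hP hgD hbad (N := (j + 1) * 2) (by rwa [pow_mul, map_pow]) h2) hq
  refine ⟨e', he'f, fun φ hφ hle => ?_, fun φ hφ _ hle => ?_, fun hle => ?_⟩
  · obtain ⟨d, hd, hd0⟩ := SetLike.not_le_iff_exists.mp (hgood φ hφ)
    obtain ⟨d', hd', hdd'⟩ := hden d hd
    choose W hW using hDu' hd
    have h1 : ∀ i, W i ∈ pt φ := by
      refine pt_real hK φ W ?_
      rw [num_sq' hW hdd']
      exact Ideal.mul_mem_left _ _ (hle hd')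
    obtain ⟨N, c, hc1, hc2⟩ := eval_rel u d (fun i => W i + d * algebraMap K A (η i))
      (fun i => by
        simp only [map_add, map_mul, hW, u', ← IsScalarTower.algebraMap_apply]
        ring) φ η
      (fun i => by
        have := (mem_pt φ _).mp (h1 i)
        simp [this]) Φ
    rw [hΦ, mul_zero, map_eq_zero_iff _ (IsFractionRing.injective A F)] at hc1
    rw [hc1, map_zero] at hc2
    exact mul_ne_zero (pow_ne_zero N hd0) hη1 hc2.symm
  · obtain ⟨d, hd, l, hl, hdl, hex⟩ := hcc φ hφ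
    obtain ⟨d', hd', hdd'⟩ := hden d hd
    choose W hW using hDu' hd
    obtain ⟨s', t', hst'⟩ := hZ φ hφ
    refine hη2 φ hφ (hex (W i₀) _ (hW i₀) (hst'.sq hK ?_ i₀))
    rw [num_sq' hW hdd', show 2 * l + 1 = l + (l + 1) by ring, pow_add]
    exact Ideal.mul_mem_mul hdl (Ideal.pow_le_pow_right (by omega) (hle hd'))
  · obtain ⟨d', hd', hdd'⟩ := hden g hgD
    apply hUz
    refine hst.sq hK ?_
    rw [num_sq' hU hdd']
    rw [hkdef] at hle
    have := Ideal.mul_mem_mul hg (hle hd')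
    rw [← pow_add] at this
    exact Ideal.pow_le_pow_right (by omega) this

lemma descent (hK : RealF K) (hP : Pts K A) {n : ℕ} (hn : 0 < n)
    (hdep : ∀ u : Fin n → F, ¬ AlgebraicIndependent K u) {f : A} (Z : Finset (A →ₐ[K] K))
    (hZ : ∀ φ ∈ Z, ∃ s t, Reg2 φ s t) (N : ℕ) :
    ∀ (e : Fin n → F) (κ : (A →ₐ[K] K) → ℕ), ∑ i, e i ^ 2 = algebraMap A F f →
      (∀ φ ∉ Z, ¬ den A e ≤ pt φ) → (∀ φ ∈ Z, ¬ den A e ≤ pt φ ^ (κ φ + 1)) →
      ∑ φ ∈ Z, κ φ = N → ∃ a : Fin n → A, ∑ i, a i ^ 2 = f := by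
  classical
  induction N with
  | zero =>
    intro e κ hf hgood hκ hsum
    have h1 : (1 : A) ∈ den A e := by
      refine hP.one_mem fun φ => ?_
      have : ¬ den A e ≤ pt φ := by
        by_cases hφ : φ ∈ Z
        · have := hκ φ hφ
          rwa [Finset.sum_eq_zero_iff.mp hsum φ hφ, zero_add, pow_one] at this
        · exact hgood φ hφ
      exact SetLike.not_le_iff_exists.mp this
    choose a ha using h1
    exact ⟨a, by simpa using num_sq hf ha⟩
  | succ N ih =>
    intro e κ hf hgood hκ hsum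
    obtain ⟨z, hz, hk⟩ : ∃ z ∈ Z, 1 ≤ κ z := by
      by_contra hcon
      push Not at hcon
      rw [Finset.sum_eq_zero fun φ hφ => by have := hcon φ hφ; omega] at hsum
      omega
    have hsum' : ∑ φ ∈ Z, Function.update κ z (κ z - 1) φ = N := by
      rw [Finset.sum_update_of_mem hz]
      rw [← Finset.add_sum_erase Z κ hz, Finset.erase_eq] at hsum
      omega
    have fin : ∀ e' : Fin n → F, ∑ i, e' i ^ 2 = algebraMap A F f →
        (∀ φ ∉ Z, ¬ den A e' ≤ pt φ) → (∀ φ ∈ Z, φ ≠ z → ¬ den A e' ≤ pt φ ^ (κ φ + 1)) →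
        ¬ den A e' ≤ pt z ^ κ z → ∃ a : Fin n → A, ∑ i, a i ^ 2 = f := by
      intro e' h1 h2 h3 h4
      refine ih e' _ h1 h2 (fun φ hφ => ?_) hsum'
      by_cases h : φ = z
      · subst h
        rwa [Function.update_self, Nat.sub_add_cancel hk]
      · rw [Function.update_of_ne h]
        exact h3 φ hφ h
    by_cases hDz : den A e ≤ pt z ^ κ z
    · obtain ⟨e', h1, h2, h3, h4⟩ := step hK hP hn hdep hf Z hZ κ hgood hκ hz hk hDz
      exact fin e' h1 h2 h3 h4
    · exact fin e hf hgood (fun φ hφ _ => hκ φ hφ) hDz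

/-- Abstract main theorem: a sum of `n ≥ 3` squares of fractions that lies in `A` is a sum of
`n` squares in `A`. -/
theorem sum_sq_descends (hK : RealF K) (hP : Pts K A)
    (hreg : ∀ φ : A →ₐ[K] K, IsRegularLocalRing (Localization.AtPrime (pt φ)))
    (hdep : ∀ u : Fin 3 → F, ¬ AlgebraicIndependent K u) {n : ℕ} (hn : 3 ≤ n)
    {e : Fin n → F} {f : A} (hf : ∑ i, e i ^ 2 = algebraMap A F f) :
    ∃ a : Fin n → A, ∑ i, a i ^ 2 = f := by
  classical
  have hdepA : ∀ u : Fin 3 → A, ¬ AlgebraicIndependent K u := fun u hu =>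
    hdep _ (hu.map' (f := IsScalarTower.toAlgHom K A F) (IsFractionRing.injective A F))
  have hdepn : ∀ u : Fin n → F, ¬ AlgebraicIndependent K u := fun u hu =>
    hdep _ (hu.comp (Fin.castLE hn) (Fin.castLE_injective hn))
  have hfin := finite_bad hK hdepA hreg hf
  have hκ : ∀ φ : A →ₐ[K] K, ∃ k, ¬ den A e ≤ pt φ ^ (k + 1) := by
    intro φ
    by_contra hcon
    push Not at hcon
    apply den_ne_bot (A := A) e
    rw [eq_bot_iff, ← Ideal.iInf_pow_eq_bot_of_isDomain (pt φ) (pt_ne_top φ)]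
    exact le_iInf fun k => (hcon k).trans (Ideal.pow_le_pow_right (by omega))
  choose κ hκ using hκ
  refine descent hK hP (by omega) hdepn hfin.toFinset (fun φ hφ => ?_) _ e κ hf
    (fun φ hφ => by simpa using hφ) (fun φ _ => hκ φ) rfl
  exact reg2_of_bad hK hdepA hf φ (hreg φ) (by simpa using hφ)

end Pool.Agent.MP_d2168f_ag

end

section

/-!
Transfer of the abstract theorem to the ring of regular functions.
-/

namespace Pool.Agent.MP_d2168f_ag

lemma exists_fin_of_isSumSq {A : Type*} [CommRing A] {a : A} (h : IsSumSq a) :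
    ∃ (m : ℕ) (v : Fin m → A), a = ∑ i, v i ^ 2 := by
  induction h with
  | zero => exact ⟨0, Fin.elim0, by simp⟩
  | sq_add b _ ih =>
    obtain ⟨m, v, rfl⟩ := ih
    exact ⟨m + 1, Fin.cons b v, by simp [Fin.sum_univ_succ, pow_two]⟩

lemma isSumSq_map {A F : Type*} [CommRing A] [CommRing F] (f : A →+* F) {a : A}
    (h : IsSumSq a) : IsSumSq (f a) := by
  obtain ⟨m, v, rfl⟩ := exists_fin_of_isSumSq h
  simp only [map_sum, map_pow]
  exact IsSumSq.sum_sq _ _

lemma frac_of_ring {A F : Type*} [CommRing A] [IsDomain A] [Field F] [Algebra A F]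
    [IsFractionRing A F] {m : ℕ}
    (h : ∀ a : A, IsSumSq a → ∃ v : Fin m → A, a = ∑ i, v i ^ 2) (a : F) (ha : IsSumSq a) :
    ∃ v : Fin m → F, a = ∑ i, v i ^ 2 := by
  obtain ⟨n, e, rfl⟩ := exists_fin_of_isSumSq ha
  obtain ⟨d, hd, hd0⟩ := (Submodule.ne_bot_iff _).mp (den_ne_bot (A := A) e)
  choose v hv using hd
  obtain ⟨w, hw⟩ := h (∑ i, v i ^ 2) (IsSumSq.sum_sq _ _)
  have hd' : algebraMap A F d ≠ 0 := by simpa using hd0
  refine ⟨fun i => algebraMap A F (w i) / algebraMap A F d, ?_⟩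
  have := congrArg (algebraMap A F) hw
  simp only [map_sum, map_pow, hv, mul_pow] at this
  simp only [div_pow]
  rw [← Finset.sum_div, ← this, ← Finset.mul_sum]
  field_simp

variable {K B : Type*} [Field K] [CommRing B] [Algebra K B]

lemma three_le (hK : RealF K) {F : Type*} [Field F] [Algebra K F]
    (ε : F ≃ₐ[K] FractionRing (MvPolynomial (Fin 2) K)) {m : ℕ} (hm : 1 ≤ m)
    (h : ∀ a : F, IsSumSq a → ∃ v : Fin m → F, a = ∑ i, v i ^ 2) : 3 ≤ m := by
  by_contra hlt
  obtain ⟨v, hv⟩ := h (∑ i, (![1, ε.symm (algebraMap (MvPolynomial (Fin 2) K) _ (MvPolynomial.X 0)),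
    ε.symm (algebraMap (MvPolynomial (Fin 2) K) _ (MvPolynomial.X 1))] : Fin 3 → F) i ^ 2)
    (IsSumSq.sum_sq _ _)
  have h1 := congrArg ε hv
  simp only [Fin.sum_univ_three, map_add, map_pow, Matrix.cons_val_zero, Matrix.cons_val_one,
    Matrix.cons_val_two, map_one, AlgEquiv.apply_symm_apply, map_sum, Matrix.head_cons,
    Matrix.tail_cons] at h1
  obtain rfl | rfl : m = 1 ∨ m = 2 := by omega
  · exact not_two_sq hK (ε (v 0)) 0 (by rw [h1]; simp)
  · exact not_two_sq hK (ε (v 0)) (ε (v 1)) (by rw [h1]; simp)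

lemma pts_localization (hK : RealF K) [IsNoetherianRing B] :
    Pts K (Localization (nonvanishing K B)) := by
  classical
  intro I hI
  set A := Localization (nonvanishing K B)
  obtain ⟨n, g, hg⟩ := Submodule.fg_iff_exists_fin_generating_family.mp
    (IsNoetherian.noetherian (I.comap (algebraMap B A)))
  have hgI : ∀ i, g i ∈ I.comap (algebraMap B A) := fun i =>
    hg ▸ Submodule.subset_span ⟨i, rfl⟩
  have h1 : ∑ i, g i ^ 2 ∉ nonvanishing K B := by
    intro hmem
    refine hI (I.eq_top_of_isUnit_mem (x := algebraMap B A (∑ i, g i ^ 2)) ?_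
      (IsLocalization.map_units A ⟨_, hmem⟩))
    exact Ideal.sum_mem (I.comap (algebraMap B A)) fun i _ =>
      Ideal.pow_mem_of_mem _ (hgI i) 2 two_pos
  obtain ⟨x, hx⟩ : ∃ x : B →ₐ[K] K, x (∑ i, g i ^ 2) = 0 := by
    by_contra hcon
    push Not at hcon
    exact h1 hcon
  have h2 : I.comap (algebraMap B A) ≤ pt x := by
    rw [← hg, Submodule.span_le]
    rintro _ ⟨i, rfl⟩
    exact pt_real hK x g hx i
  let φ : A →ₐ[K] K := IsLocalization.liftAlgHom (M := nonvanishing K B) (f := x)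
    (fun y => (y.2 x).isUnit)
  refine ⟨φ, fun a ha => ?_⟩
  obtain ⟨⟨b, s⟩, rfl⟩ := IsLocalization.mk'_surjective (nonvanishing K B) a
  have h3 : b ∈ I.comap (algebraMap B A) := IsLocalization.mk'_mem_iff.mp ha
  have h4 : φ (algebraMap B A b) = 0 := by
    have : φ (algebraMap B A b) = x b := by simp [φ]
    rw [this]
    exact h2 h3
  simp only
  rw [mem_pt, IsLocalization.mk'_eq_mul_mk'_one, map_mul, h4, zero_mul]

theorem pythagoras_eq (hK : ¬ IsSumSq (-1 : K)) [IsDomain B] [Algebra.FiniteType K B]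
    (hreg : ∀ (p : Ideal B) [p.IsPrime], (∃ x : B →ₐ[K] K, p = RingHom.ker x) →
      IsRegularLocalRing (Localization.AtPrime p))
    (hrat : Nonempty (FractionRing B ≃ₐ[K] FractionRing (MvPolynomial (Fin 2) K))) :
    pythagorasNumber (Localization (nonvanishing K B)) = pythagorasNumber (FractionRing B) := by
  have hR := realF_of_not_isSumSq hK
  have := hR.infinite
  obtain ⟨ε⟩ := hrat
  have : IsNoetherianRing B := Algebra.FiniteType.isNoetherianRing K B
  obtain ⟨x₀⟩ := exists_point (ε.toAlgHom.comp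
    (IsScalarTower.toAlgHom K B (FractionRing B)))
  have hS : nonvanishing K B ≤ nonZeroDivisors B := fun g hg =>
    mem_nonZeroDivisors_of_ne_zero fun h => hg x₀ (by simp [h])
  set A := Localization (nonvanishing K B)
  set F := FractionRing B
  have : IsDomain A := IsLocalization.isDomain_localization hS
  have : IsNoetherianRing A := IsLocalization.isNoetherianRing (nonvanishing K B) A inferInstance
  let _ : Algebra A F :=
    IsLocalization.localizationAlgebraOfSubmonoidLe A F (nonvanishing K B) (nonZeroDivisors B) hS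
  have : IsScalarTower B A F :=
    IsLocalization.localization_isScalarTower_of_submonoid_le A F _ _ hS
  have : IsScalarTower K A F := IsScalarTower.of_algebraMap_eq fun c => by
    rw [IsScalarTower.algebraMap_apply K B A, ← IsScalarTower.algebraMap_apply B A F,
      ← IsScalarTower.algebraMap_apply K B F]
  have : IsFractionRing A F :=
    IsFractionRing.isFractionRing_of_isDomain_of_isLocalization (nonvanishing K B) A F
  have hregA : ∀ φ : A →ₐ[K] K, IsRegularLocalRing (Localization.AtPrime (pt φ)) := by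
    intro φ
    have := hreg ((pt φ).comap (algebraMap B A)) ⟨φ.comp (IsScalarTower.toAlgHom K B A), rfl⟩
    exact IsRegularLocalRing.of_ringEquiv
      (IsLocalization.localizationLocalizationAtPrimeIsoLocalization
        (nonvanishing K B) (pt φ)).toRingEquiv
  have hdep : ∀ u : Fin 3 → F, ¬ AlgebraicIndependent K u := fun u hu =>
    not_indep _ (hu.map' (f := ε.toAlgHom) ε.injective)
  unfold pythagorasNumber
  congr 1
  ext n
  refine exists_congr fun m => and_congr_right fun _ => and_congr_right fun hm => ⟨fun h => ?_, ?_⟩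
  · exact frac_of_ring h
  · intro h f hf
    obtain ⟨e, he⟩ := h _ (isSumSq_map (algebraMap A F) hf)
    obtain ⟨a, ha⟩ := sum_sq_descends hR (pts_localization hR) hregA hdep (three_le hR ε hm h)
      he.symm
    exact ⟨a, ha.symm⟩

end Pool.Agent.MP_d2168f_ag

end
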