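import Mathlib

section

/-!
Local theory at a rational point of a two-dimensional regular scheme, written inside the
global ring `A` (no localisation): `m = ker φ`.
-/

namespace Pool.Agent.MP_d2168f_ag

open Polynomial

variable {K A : Type*} [Field K] [CommRing A] [Algebra K A]

/-- the maximal ideal of a rational point -/
abbrev pt (φ : A →ₐ[K] K) : Ideal A := RingHom.ker φ

lemma mem_pt (φ : A →ₐ[K] K) (a : A) : a ∈ pt φ ↔ φ a = 0 := RingHom.mem_ker

lemma sub_const_mem (φ : A →ₐ[K] K) (a : A) : a - algebraMap K A (φ a) ∈ pt φ := by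
  rw [mem_pt]; simp

lemma pt_ne_top (φ : A →ₐ[K] K) : pt φ ≠ ⊤ := RingHom.ker_ne_top φ

lemma pt_isPrime (φ : A →ₐ[K] K) : (pt φ).IsPrime := RingHom.ker_isPrime φ

lemma eq_of_pt_le {φ ψ : A →ₐ[K] K} (h : pt φ ≤ pt ψ) : φ = ψ := by
  ext a
  have := h (sub_const_mem φ a)
  rw [mem_pt] at this
  simp only [map_sub, AlgHom.commutes, Algebra.algebraMap_self, RingHom.id_apply] at this
  exact (sub_eq_zero.mp this).symm

/-- elements not vanishing at the point are invertible modulo powers of `m` -/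
lemma exists_inv_mod (φ : A →ₐ[K] K) {a : A} (ha : φ a ≠ 0) (N : ℕ) :
    ∃ u : A, 1 - u * a ∈ pt φ ^ N := by
  have h1 : IsCoprime a (a - algebraMap K A (φ a)) := by
    refine ⟨algebraMap K A (φ a)⁻¹, - algebraMap K A (φ a)⁻¹, ?_⟩
    have : algebraMap K A (φ a)⁻¹ * algebraMap K A (φ a) = 1 := by
      rw [← map_mul, inv_mul_cancel₀ ha, map_one]
    linear_combination this
  obtain ⟨u, v, huv⟩ := h1.pow_right (n := N)
  refine ⟨u, ?_⟩
  have : 1 - u * a = v * (a - algebraMap K A (φ a)) ^ N := by linear_combination -huv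
  rw [this]
  exact Ideal.mul_mem_left _ _ (Ideal.pow_mem_pow (sub_const_mem φ a) N)

lemma cancel_unit (φ : A →ₐ[K] K) {a d : A} (ha : φ a ≠ 0) {I : Ideal A} {N : ℕ}
    (h : a * d ∈ I ⊔ pt φ ^ N) : d ∈ I ⊔ pt φ ^ N := by
  obtain ⟨u, hu⟩ := exists_inv_mod φ ha N
  have : d = u * (a * d) + (1 - u * a) * d := by ring
  rw [this]
  exact Ideal.add_mem _ (Ideal.mul_mem_left _ _ h)
    (Ideal.mem_sup_right (Ideal.mul_mem_right _ _ hu))

lemma cancel_unit' (φ : A →ₐ[K] K) {a d : A} (ha : φ a ≠ 0) {N : ℕ}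
    (h : a * d ∈ pt φ ^ N) : d ∈ pt φ ^ N := by
  have := cancel_unit φ ha (I := ⊥) (N := N) (d := d) (by simpa using h)
  simpa using this

/-- Krull's intersection theorem, in the form needed here -/
lemma krull [IsNoetherianRing A] (φ : A →ₐ[K] K) {d : A} {I : Ideal A}
    (h : ∀ N, d ∈ I ⊔ pt φ ^ N) : ∃ a, φ a ≠ 0 ∧ a * d ∈ I := by
  have : Ideal.Quotient.mk I d ∈ (⨅ i : ℕ, pt φ ^ i • ⊤ : Submodule A (A ⧸ I)) := by
    rw [Submodule.mem_iInf]
    intro N
    obtain ⟨y, hy, z, hz, hyz⟩ := Submodule.mem_sup.mp (h N)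
    have : Ideal.Quotient.mk I d = z • (1 : A ⧸ I) := by
      rw [← hyz, map_add, Ideal.Quotient.eq_zero_iff_mem.mpr hy, zero_add, Algebra.smul_def,
        mul_one]
      rfl
    rw [this]
    exact Submodule.smul_mem_smul hz Submodule.mem_top
  obtain ⟨r, hr⟩ := (Ideal.mem_iInf_smul_pow_eq_bot_iff _ _).mp this
  refine ⟨1 - r, ?_, ?_⟩
  · have := (mem_pt φ _).mp r.2
    simp [this]
  · rw [← Ideal.Quotient.eq_zero_iff_mem, sub_mul, one_mul, map_sub, sub_eq_zero, ← hr,
      Algebra.smul_def]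
    rfl

/-- Nakayama's lemma, in the form needed here -/
lemma nakayama [IsNoetherianRing A] (φ : A →ₐ[K] K) {P N : Ideal A}
    (h : P ≤ N ⊔ pt φ * P) : ∃ r, φ r ≠ 0 ∧ ∀ q ∈ P, r * q ∈ N := by
  obtain ⟨r, hr, hP⟩ := Submodule.exists_sub_one_mem_and_smul_le_of_fg_of_le_sup
    (I := pt φ) (N := N) (N' := P) (P := P) (IsNoetherian.noetherian P) le_rfl h
  refine ⟨r, ?_, fun q hq => hP (Submodule.smul_mem_pointwise_smul q r P hq)⟩
  have := (mem_pt φ _).mp hr
  simp only [map_sub, map_one] at this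
  rw [sub_eq_zero.mp this]
  exact one_ne_zero

/-- exact order -/
lemma exists_order (I : Ideal A) {g : A} {N : ℕ} (hg : g ∉ I ^ (N + 1)) :
    ∃ k ≤ N, g ∈ I ^ k ∧ g ∉ I ^ (k + 1) := by
  induction N with
  | zero => exact ⟨0, le_rfl, by simp, hg⟩
  | succ N ih =>
    by_cases h : g ∈ I ^ (N + 1)
    · exact ⟨N + 1, le_rfl, h, hg⟩
    · obtain ⟨k, hk, h1, h2⟩ := ih h
      exact ⟨k, by omega, h1, h2⟩

section forms

/-- the binary form of degree `k` with dehomogenisation `p`, evaluated at `(s, t)` -/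
noncomputable def form (s t : A) (k : ℕ) (p : K[X]) : A :=
  ∑ i ∈ Finset.range (k + 1), algebraMap K A (p.coeff i) * (s ^ i * t ^ (k - i))

lemma form_add (s t : A) (k : ℕ) (p q : K[X]) :
    form s t k (p + q) = form s t k p + form s t k q := by
  simp [form, Finset.sum_add_distrib, add_mul]

lemma form_zero (s t : A) (k : ℕ) : form s t k (0 : K[X]) = 0 := by simp [form]

lemma form_C_mul (s t : A) (k : ℕ) (c : K) (p : K[X]) :
    form s t k (C c * p) = algebraMap K A c * form s t k p := by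
  simp [form, Finset.mul_sum, mul_assoc]

lemma form_X_mul (s t : A) (k : ℕ) (p : K[X]) :
    form s t (k + 1) (X * p) = s * form s t k p := by
  unfold form
  rw [Finset.sum_range_succ', Finset.mul_sum]
  simp only [coeff_X_mul, mul_coeff_zero, coeff_X_zero, zero_mul, map_zero, add_zero]
  refine Finset.sum_congr rfl fun i _ => ?_
  rw [show k + 1 - (i + 1) = k - i by omega]
  ring

lemma form_succ (s t : A) (k : ℕ) (p : K[X]) (hp : p.natDegree ≤ k) :
    form s t (k + 1) p = t * form s t k p := by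
  unfold form
  rw [Finset.sum_range_succ, coeff_eq_zero_of_natDegree_lt (by omega : p.natDegree < k + 1),
    Finset.mul_sum]
  simp only [map_zero, zero_mul, add_zero]
  refine Finset.sum_congr rfl fun i hi => ?_
  rw [Finset.mem_range] at hi
  rw [show k + 1 - i = (k - i) + 1 by omega]
  ring

lemma form_mem {I : Ideal A} {s t : A} (hs : s ∈ I) (ht : t ∈ I) (k : ℕ) (p : K[X]) :
    form s t k p ∈ I ^ k := by
  unfold form
  refine Ideal.sum_mem _ fun i hi => Ideal.mul_mem_left _ _ ?_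
  rw [Finset.mem_range] at hi
  have := Ideal.mul_mem_mul (Ideal.pow_mem_pow hs i) (Ideal.pow_mem_pow ht (k - i))
  rwa [← pow_add, show i + (k - i) = k by omega] at this

lemma pow_sub_pow_mem {I : Ideal A} {s u : A} (hs : s ∈ I) (hu : u ∈ I) (i : ℕ) :
    s ^ (i + 1) - u ^ (i + 1) ∈ Ideal.span {s - u} * I ^ i := by
  induction i with
  | zero => simp
  | succ i ih =>
    have : s ^ (i + 1 + 1) - u ^ (i + 1 + 1)
        = (s ^ (i + 1) - u ^ (i + 1)) * s + (s - u) * u ^ (i + 1) := by ring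
    rw [this]
    refine Ideal.add_mem _ ?_ ?_
    · rw [pow_succ I, ← mul_assoc]
      exact Ideal.mul_mem_mul ih hs
    · exact Ideal.mul_mem_mul (Ideal.mem_span_singleton_self _) (Ideal.pow_mem_pow hu _)

lemma form_sub_mem {I : Ideal A} {s t : A} (hs : s ∈ I) (ht : t ∈ I) (k : ℕ) (p : K[X])
    (hp : p.natDegree ≤ k) (c : K) :
    form s t k p - algebraMap K A (p.eval c) * t ^ k
      ∈ Ideal.span {s - algebraMap K A c * t} * I ^ (k - 1) := by
  rw [eval_eq_sum_range' (by omega : p.natDegree < k + 1), map_sum, Finset.sum_mul]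
  unfold form
  rw [← Finset.sum_sub_distrib]
  refine Ideal.sum_mem _ fun i hi => ?_
  rw [Finset.mem_range] at hi
  have e : algebraMap K A (p.coeff i) * (s ^ i * t ^ (k - i))
      - algebraMap K A (p.coeff i * c ^ i) * t ^ k
      = algebraMap K A (p.coeff i) * ((s ^ i - (algebraMap K A c * t) ^ i) * t ^ (k - i)) := by
    have : t ^ k = t ^ i * t ^ (k - i) := by rw [← pow_add]; congr 1; omega
    rw [this, map_mul, map_pow]
    ring
  rw [e]
  refine Ideal.mul_mem_left _ _ ?_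
  rcases i with _ | i
  · simp
  · have h1 := pow_sub_pow_mem hs (I.mul_mem_left (algebraMap K A c) ht) i
    have h2 := Ideal.mul_mem_mul h1 (Ideal.pow_mem_pow ht (k - (i + 1)))
    rwa [mul_assoc, ← pow_add, show i + (k - (i + 1)) = k - 1 by omega] at h2

lemma exists_form (φ : A →ₐ[K] K) {s t : A} (hs : s ∈ pt φ) (ht : t ∈ pt φ)
    (hst : pt φ ≤ Ideal.span {s, t} ⊔ pt φ ^ 2) (k : ℕ) :
    ∀ r ∈ pt φ ^ k, ∃ p : K[X], p.natDegree ≤ k ∧ r - form s t k p ∈ pt φ ^ (k + 1) := by
  induction k with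
  | zero =>
    intro r _
    refine ⟨C (φ r), by simp, ?_⟩
    simp [form]
  | succ k ih =>
    intro r hr
    rw [pow_succ] at hr
    refine Submodule.mul_induction_on hr ?_ ?_
    · intro a ha b hb
      obtain ⟨p, hp, hap⟩ := ih a ha
      obtain ⟨y, hy, z, hz, hyz⟩ := Submodule.mem_sup.mp (hst hb)
      obtain ⟨α, β, hαβ⟩ := Ideal.mem_span_pair.mp hy
      refine ⟨C (φ α) * (X * p) + C (φ β) * p, ?_, ?_⟩
      · refine (natDegree_add_le _ _).trans (max_le ?_ ?_)
        · refine (natDegree_C_mul_le _ _).trans (natDegree_mul_le.trans ?_)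
          have := natDegree_X_le (R := K)
          omega
        · exact (natDegree_C_mul_le _ _).trans (by omega)
      · rw [form_add, form_C_mul, form_C_mul, form_X_mul, form_succ _ _ _ _ hp]
        have e : a * b - (algebraMap K A (φ α) * (s * form s t k p)
            + algebraMap K A (φ β) * (t * form s t k p))
            = (a - form s t k p) * b + form s t k p *
              ((α - algebraMap K A (φ α)) * s + (β - algebraMap K A (φ β)) * t + z) := by
          rw [← hyz, ← hαβ]; ring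
        rw [e]
        refine Ideal.add_mem _ ?_ ?_
        · rw [pow_succ]; exact Ideal.mul_mem_mul hap hb
        · rw [show k + 1 + 1 = k + 2 by ring, pow_add]
          refine Ideal.mul_mem_mul (form_mem hs ht k p) ?_
          refine Ideal.add_mem _ (Ideal.add_mem _ ?_ ?_) hz
          · rw [pow_two]; exact Ideal.mul_mem_mul (sub_const_mem φ α) hs
          · rw [pow_two]; exact Ideal.mul_mem_mul (sub_const_mem φ β) ht
    · rintro x y ⟨p, hp, hx⟩ ⟨q, hq, hy⟩
      refine ⟨p + q, (natDegree_add_le _ _).trans (max_le hp hq), ?_⟩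
      rw [form_add]
      have := Ideal.add_mem _ hx hy
      convert this using 1
      ring

/-- values of the initial form along all directions -/
lemma exists_val (φ : A →ₐ[K] K) {s t : A} (hs : s ∈ pt φ) (ht : t ∈ pt φ)
    (hst : pt φ ≤ Ideal.span {s, t} ⊔ pt φ ^ 2) (k : ℕ) {r : A} (hr : r ∈ pt φ ^ k) :
    ∃ p : K[X], (p = 0 → r ∈ pt φ ^ (k + 1)) ∧ ∀ (c : K) (π : A),
      π - (s - algebraMap K A c * t) ∈ pt φ ^ 2 →
      r - algebraMap K A (p.eval c) * t ^ k
        ∈ Ideal.span {π} * pt φ ^ (k - 1) ⊔ pt φ ^ (k + 1) := by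
  obtain ⟨p, hp, hrp⟩ := exists_form φ hs ht hst k r hr
  refine ⟨p, fun h => by simpa [h, form_zero] using hrp, fun c π hπ => ?_⟩
  have h1 := form_sub_mem hs ht k p hp c
  rw [Ideal.mem_span_singleton_mul] at h1
  obtain ⟨z, hz, hz'⟩ := h1
  have e : r - algebraMap K A (p.eval c) * t ^ k
      = π * z + ((r - form s t k p) - (π - (s - algebraMap K A c * t)) * z) := by
    linear_combination -hz'
  rw [e]
  refine Submodule.add_mem_sup
    (Ideal.mul_mem_mul (Ideal.mem_span_singleton_self _) hz) (Ideal.sub_mem _ hrp ?_)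
  have h2 := Ideal.mul_mem_mul hπ hz
  rw [← pow_add] at h2
  rcases k with _ | k
  · exact Ideal.pow_le_pow_right (by omega) h2
  · rwa [show 2 + (k + 1 - 1) = k + 1 + 1 by omega] at h2

end forms

end Pool.Agent.MP_d2168f_ag

end

section

/-!
Consequences of the theory of initial forms at a two-dimensional regular rational point.
-/

namespace Pool.Agent.MP_d2168f_ag

open Polynomial

variable {K A : Type*} [Field K] [CommRing A] [Algebra K A]

/-- `K` is formally real, in the form used in the proofs -/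
def RealF (K : Type*) [Field K] : Prop :=
  ∀ (n : ℕ) (v : Fin n → K), ∑ i, v i ^ 2 = 0 → ∀ i, v i = 0

lemma realF_of_not_isSumSq (hK : ¬ IsSumSq (-1 : K)) : RealF K := by
  intro n v hv i
  by_contra hi
  apply hK
  have h1 : ∑ j ∈ Finset.univ.erase i, (v j / v i) ^ 2 = -1 := by
    have h2 := Finset.add_sum_erase Finset.univ (fun j => v j ^ 2) (Finset.mem_univ i)
    rw [hv] at h2
    simp only [div_pow]
    rw [← Finset.sum_div, div_eq_iff (pow_ne_zero 2 hi)]
    linear_combination h2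
  rw [← h1]
  exact IsSumSq.sum_sq _ _

lemma RealF.charZero (hK : RealF K) : CharZero K := by
  refine ⟨fun a b hab => ?_⟩
  wlog h : a ≤ b generalizing a b
  · exact (this b a hab.symm (by omega)).symm
  by_contra hne
  obtain ⟨c, rfl⟩ := Nat.exists_eq_add_of_le h
  have hc : (c : K) = 0 := by simpa using hab
  have := hK c (fun _ => 1) (by simpa using hc) ⟨0, by omega⟩
  exact one_ne_zero this

lemma RealF.infinite (hK : RealF K) : Infinite K :=
  haveI := hK.charZero
  Infinite.of_injective _ (Nat.cast_injective (R := K))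

/-- the point is regular of dimension two -/
structure Reg2 (φ : A →ₐ[K] K) (s t : A) : Prop where
  hs : s ∈ pt φ
  ht : t ∈ pt φ
  gen : pt φ ≤ Ideal.span {s, t} ⊔ pt φ ^ 2
  nd : ∀ π ∈ pt φ, ∀ k, ¬ pt φ ^ k ≤ Ideal.span {π} ⊔ pt φ ^ (k + 1)

lemma span_mul_le (π : A) (J : Ideal A) : Ideal.span {π} * J ≤ Ideal.span {π} :=
  Ideal.mul_le_left

lemma T_mul {I J : Ideal A} {a b : ℕ} {x y : A} (hx : x ∈ J ⊔ I ^ a) (hy : y ∈ J ⊔ I ^ b) :
    x * y ∈ J ⊔ I ^ (a + b) := by
  obtain ⟨x1, hx1, x2, hx2, rfl⟩ := Submodule.mem_sup.mp hx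
  obtain ⟨y1, hy1, y2, hy2, rfl⟩ := Submodule.mem_sup.mp hy
  have e : (x1 + x2) * (y1 + y2) = (x1 * (y1 + y2) + x2 * y1) + x2 * y2 := by ring
  rw [e]
  refine Submodule.add_mem_sup (J.add_mem (J.mul_mem_right _ hx1) (J.mul_mem_left _ hy1)) ?_
  rw [pow_add]
  exact Ideal.mul_mem_mul hx2 hy2

variable {φ : A →ₐ[K] K} {s t : A}

lemma Reg2.dir_mem (h : Reg2 φ s t) {c : K} {π : A}
    (hπ : π - (s - algebraMap K A c * t) ∈ pt φ ^ 2) : π ∈ pt φ := by
  have h1 : π - (s - algebraMap K A c * t) ∈ pt φ := Ideal.pow_le_self two_ne_zero hπ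
  have h2 := Ideal.add_mem _ h1 (Ideal.sub_mem _ h.hs
    ((pt φ).mul_mem_left (algebraMap K A c) h.ht))
  simpa using h2

/-- a constant multiple of `t ^ k` lies in `(π) + m ^ (k+1)` only if the constant is zero -/
lemma Reg2.const_eq_zero (h : Reg2 φ s t) {c : K} {π : A}
    (hπ : π - (s - algebraMap K A c * t) ∈ pt φ ^ 2) {k : ℕ} {a : K}
    (ha : algebraMap K A a * t ^ k ∈ Ideal.span {π} ⊔ pt φ ^ (k + 1)) : a = 0 := by
  by_contra hne
  have ht : t ^ k ∈ Ideal.span {π} ⊔ pt φ ^ (k + 1) :=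
    cancel_unit φ (a := algebraMap K A a) (by simpa using hne) ha
  refine h.nd π (h.dir_mem hπ) k fun r hr => ?_
  obtain ⟨p, -, hp⟩ := exists_val φ h.hs h.ht h.gen k hr
  have h1 := sup_le_sup_right (span_mul_le π (pt φ ^ (k - 1))) (pt φ ^ (k + 1)) (hp c π hπ)
  have h2 := Ideal.add_mem _ h1 (Ideal.mul_mem_left _ (algebraMap K A (p.eval c)) ht)
  simpa using h2

lemma Reg2.sq_step (hK : RealF K) (h : Reg2 φ s t) {n a : ℕ} {w : Fin n → A}
    (hw : ∀ i, w i ∈ pt φ ^ a) (hs : ∑ i, w i ^ 2 ∈ pt φ ^ (2 * a + 1)) (i : Fin n) :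
    w i ∈ pt φ ^ (a + 1) := by
  have := hK.infinite
  choose p hp0 hp using fun i => exists_val φ h.hs h.ht h.gen a (hw i)
  apply hp0
  apply Polynomial.funext
  intro c
  rw [eval_zero]
  refine hK n (fun i => (p i).eval c) ?_ i
  have hπ : (s - algebraMap K A c * t) - (s - algebraMap K A c * t) ∈ pt φ ^ 2 := by simp
  refine h.const_eq_zero hπ (k := 2 * a) ?_
  set π := s - algebraMap K A c * t
  have e : algebraMap K A (∑ i, (p i).eval c ^ 2) * t ^ (2 * a)
      = ∑ i, w i ^ 2 - ∑ i, (w i - algebraMap K A ((p i).eval c) * t ^ a)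
        * (w i + algebraMap K A ((p i).eval c) * t ^ a) := by
    rw [map_sum, Finset.sum_mul, ← Finset.sum_sub_distrib]
    refine Finset.sum_congr rfl fun i _ => ?_
    rw [map_pow]
    ring
  rw [e]
  refine Ideal.sub_mem _ (Ideal.mem_sup_right hs) (Ideal.sum_mem _ fun i _ => ?_)
  have h1 := sup_le_sup_right (span_mul_le π (pt φ ^ (a - 1))) (pt φ ^ (a + 1)) (hp i c π hπ)
  have h2 : w i + algebraMap K A ((p i).eval c) * t ^ a ∈ Ideal.span {π} ⊔ pt φ ^ a :=
    Ideal.mem_sup_right (Ideal.add_mem _ (hw i)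
      (Ideal.mul_mem_left _ _ (Ideal.pow_mem_pow h.ht a)))
  have := T_mul h1 h2
  rwa [show a + 1 + a = 2 * a + 1 by ring] at this

/-- the order of a sum of squares is twice the least order of the terms -/
lemma Reg2.sq (hK : RealF K) (h : Reg2 φ s t) {n a : ℕ} {w : Fin n → A}
    (hs : ∑ i, w i ^ 2 ∈ pt φ ^ (2 * a + 1)) (i : Fin n) : w i ∈ pt φ ^ (a + 1) := by
  have : ∀ b ≤ a + 1, ∀ i, w i ∈ pt φ ^ b := by
    intro b
    induction b with
    | zero => intro _ i; simp
    | succ b ih =>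
      intro hb
      exact h.sq_step hK (ih (by omega)) (Ideal.pow_le_pow_right (by omega) hs)
  exact this _ le_rfl i

lemma avoid [Infinite K] (Y : Finset (A →ₐ[K] K)) (a b : A)
    (hab : ∀ ψ ∈ Y, ψ a ≠ 0 ∨ ψ b ≠ 0) :
    ∃ μ : K, ∀ ψ ∈ Y, ψ (a + algebraMap K A μ * b) ≠ 0 := by
  classical
  obtain ⟨μ, hμ⟩ := Infinite.exists_notMem_finset (Y.image fun ψ => - ψ a / ψ b)
  refine ⟨μ, fun ψ hψ h0 => ?_⟩
  simp only [map_add, map_mul, AlgHom.commutes, Algebra.algebraMap_self, RingHom.id_apply] at h0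
  by_cases hb : ψ b = 0
  · rcases hab ψ hψ with h | h
    · apply h; simpa [hb] using h0
    · exact h hb
  · apply hμ
    refine Finset.mem_image.mpr ⟨ψ, hψ, ?_⟩
    rw [div_eq_iff hb]
    linear_combination -h0

lemma exists_mem_pt_avoid [Infinite K] (φ : A →ₐ[K] K) (Y : Finset (A →ₐ[K] K)) (hY : φ ∉ Y) :
    ∃ h ∈ pt φ, ∀ ψ ∈ Y, ψ h ≠ 0 := by
  classical
  induction Y using Finset.induction_on with
  | empty => exact ⟨0, zero_mem _, by simp⟩
  | insert χ Y hχ ih =>
    rw [Finset.mem_insert, not_or] at hY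
    obtain ⟨h, hh, hhY⟩ := ih hY.2
    have : ¬ pt φ ≤ pt χ := fun hle => hY.1 (eq_of_pt_le hle)
    obtain ⟨b, hb, hb'⟩ := SetLike.not_le_iff_exists.mp this
    obtain ⟨μ, hμ⟩ := avoid (insert χ Y) h b (by
      intro ψ hψ
      rcases Finset.mem_insert.mp hψ with rfl | hψ
      · exact Or.inr hb'
      · exact Or.inl (hhY ψ hψ))
    exact ⟨_, Ideal.add_mem _ hh (Ideal.mul_mem_left _ _ hb), hμ⟩

/-- a regular parameter transversal to `g` -/
structure Param (φ : A →ₐ[K] K) (g : A) (k : ℕ) (π : A) : Prop where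
  mem : π ∈ pt φ
  ne : π ≠ 0
  gen : ∃ r, φ r ≠ 0 ∧ ∀ q ∈ pt φ ^ k, r * q ∈ Ideal.span {g} ⊔ Ideal.span {π} * pt φ ^ (k - 1)
  prime : ∀ r, π ∣ g * r → ∃ a, φ a ≠ 0 ∧ π ∣ a * r

lemma Reg2.exists_param [Infinite K] [IsNoetherianRing A] (h : Reg2 φ s t) {g : A} {k : ℕ}
    (hg : g ∈ pt φ ^ k) (hg' : g ∉ pt φ ^ (k + 1)) (Y : Finset (A →ₐ[K] K)) (hY : φ ∉ Y) :
    ∃ π, Param φ g k π ∧ ∀ ψ ∈ Y, ψ π ≠ 0 := by
  obtain ⟨p, hp0, hp⟩ := exists_val φ h.hs h.ht h.gen k hg
  have hpne : p ≠ 0 := fun h0 => hg' (hp0 h0)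
  obtain ⟨c, hc⟩ : ∃ c, p.eval c ≠ 0 := by
    by_contra hcon
    push Not at hcon
    exact hpne (Polynomial.funext fun c => by simpa using hcon c)
  obtain ⟨b, hb, hbY⟩ := exists_mem_pt_avoid φ Y hY
  obtain ⟨μ, hμ⟩ := avoid Y (s - algebraMap K A c * t) (b ^ 2)
    (fun ψ hψ => Or.inr (by simpa using hbY ψ hψ))
  set π := s - algebraMap K A c * t + algebraMap K A μ * b ^ 2 with hπdef
  have hπ : π - (s - algebraMap K A c * t) ∈ pt φ ^ 2 := by
    have : π - (s - algebraMap K A c * t) = algebraMap K A μ * b ^ 2 := by rw [hπdef]; ring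
    rw [this]
    exact Ideal.mul_mem_left _ _ (Ideal.pow_mem_pow hb 2)
  have hgπ := hp c π hπ
  refine ⟨π, ⟨h.dir_mem hπ, ?_, ?_, ?_⟩, hμ⟩
  · intro h0
    refine h.nd t h.ht 1 fun r hr => ?_
    obtain ⟨q, -, hq⟩ := exists_val φ h.hs h.ht h.gen 1 hr
    have h1 := hq c π hπ
    rw [h0] at h1
    simp only [Ideal.span_singleton_zero, Ideal.bot_mul, bot_sup_eq, pow_one] at h1
    have h2 : algebraMap K A (q.eval c) * t ∈ Ideal.span {t} :=
      Ideal.mul_mem_left _ _ (Ideal.mem_span_singleton_self t)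
    have := Submodule.add_mem_sup h2 h1
    simpa using this
  · apply nakayama φ
    rw [← pow_succ']
    intro r hr
    obtain ⟨q, -, hq⟩ := exists_val φ h.hs h.ht h.gen k hr
    have h1 := hq c π hπ
    have hle : Ideal.span {π} * pt φ ^ (k - 1) ⊔ pt φ ^ (k + 1)
        ≤ (Ideal.span {g} ⊔ Ideal.span {π} * pt φ ^ (k - 1)) ⊔ pt φ ^ (k + 1) :=
      sup_le_sup_right le_sup_right _
    have ht : t ^ k ∈ (Ideal.span {g} ⊔ Ideal.span {π} * pt φ ^ (k - 1)) ⊔ pt φ ^ (k + 1) := by
      refine cancel_unit φ (a := algebraMap K A (p.eval c)) (by simpa using hc) ?_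
      have e : algebraMap K A (p.eval c) * t ^ k = g - (g - algebraMap K A (p.eval c) * t ^ k) := by
        ring
      rw [e]
      refine Ideal.sub_mem _ (Ideal.mem_sup_left (Ideal.mem_sup_left
        (Ideal.mem_span_singleton_self g))) ?_
      exact hle hgπ
    have h2 := Ideal.add_mem _ (hle h1)
      (Ideal.mul_mem_left _ (algebraMap K A (q.eval c)) ht)
    simpa using h2
  · intro r hr
    have key : ∀ i, r ∈ Ideal.span {π} ⊔ pt φ ^ i := by
      intro i
      induction i with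
      | zero => simp
      | succ i ih =>
        obtain ⟨r0, hr0, r1, hr1, hr01⟩ := Submodule.mem_sup.mp ih
        obtain ⟨q, -, hq⟩ := exists_val φ h.hs h.ht h.gen i hr1
        have h1 := sup_le_sup_right (span_mul_le π (pt φ ^ (i - 1))) (pt φ ^ (i + 1)) (hq c π hπ)
        have h2 : r - algebraMap K A (q.eval c) * t ^ i ∈ Ideal.span {π} ⊔ pt φ ^ (i + 1) := by
          have := Ideal.add_mem _ (Ideal.mem_sup_left hr0) h1
          rw [← hr01]
          convert this using 1
          ring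
        have h3 := sup_le_sup_right (span_mul_le π (pt φ ^ (k - 1))) (pt φ ^ (k + 1)) hgπ
        have h4 : p.eval c * q.eval c = 0 := by
          refine h.const_eq_zero hπ (k := k + i) ?_
          have e : algebraMap K A (p.eval c * q.eval c) * t ^ (k + i)
              = g * r - (g - algebraMap K A (p.eval c) * t ^ k) * r
                - (algebraMap K A (p.eval c) * t ^ k)
                  * (r - algebraMap K A (q.eval c) * t ^ i) := by
            rw [map_mul]; ring
          rw [e]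
          refine Ideal.sub_mem _ (Ideal.sub_mem _ ?_ ?_) ?_
          · exact Ideal.mem_sup_left (Ideal.mem_span_singleton.mpr hr)
          · have := T_mul h3 ih
            rwa [show k + 1 + i = k + i + 1 by ring] at this
          · exact T_mul (a := k) (b := i + 1) (Ideal.mem_sup_right
              (Ideal.mul_mem_left _ _ (Ideal.pow_mem_pow h.ht k))) h2
        have h5 : q.eval c = 0 := (mul_eq_zero.mp h4).resolve_left hc
        simpa [h5] using h2
    obtain ⟨a, ha, har⟩ := krull φ key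
    exact ⟨a, ha, Ideal.mem_span_singleton.mp har⟩

variable {g π : A} {k : ℕ}

lemma Param.pow_dvd [IsDomain A] (h : Param φ g k π) (N : ℕ) :
    ∀ r, π ^ N ∣ g * r → ∃ a, φ a ≠ 0 ∧ π ^ N ∣ a * r := by
  induction N with
  | zero => intro r _; exact ⟨1, by simp, by simp⟩
  | succ N ih =>
    intro r hr
    obtain ⟨a, ha, r', hr'⟩ := h.prime r ((dvd_pow_self π (Nat.succ_ne_zero N)).trans hr)
    have h1 : π ^ N ∣ g * r' := by
      have h2 : π * π ^ N ∣ π * (g * r') := by
        have : π * (g * r') = a * (g * r) := by linear_combination -g * hr'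
        rw [this, ← pow_succ']
        exact Dvd.dvd.mul_left hr a
      exact (mul_dvd_mul_iff_left h.ne).mp h2
    obtain ⟨a', ha', r'', hr''⟩ := ih r' h1
    refine ⟨a' * a, by simp [ha, ha'], r'', ?_⟩
    rw [pow_succ']
    linear_combination a' * hr' + π * hr''

lemma Param.gen_pow (h : Param φ g k π) (hk : 1 ≤ k) (j : ℕ) :
    ∀ w ∈ pt φ ^ (k + j), ∃ a, φ a ≠ 0 ∧ ∃ x y, a * w = g * x + π ^ (j + 1) * y := by
  obtain ⟨r, hr, hgen⟩ := h.gen
  have step : ∀ j, ∀ w ∈ pt φ ^ (k + j), ∃ x, ∃ y ∈ pt φ ^ (k - 1 + j),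
      r * w = g * x + π * y := by
    intro j w hw
    rw [pow_add] at hw
    refine Submodule.mul_induction_on hw ?_ ?_
    · intro q hq z hz
      obtain ⟨u, hu, v, hv, huv⟩ := Submodule.mem_sup.mp (hgen q hq)
      obtain ⟨x, rfl⟩ := Ideal.mem_span_singleton'.mp hu
      obtain ⟨y, hy, rfl⟩ := Ideal.mem_span_singleton_mul.mp hv
      refine ⟨x * z, y * z, ?_, ?_⟩
      · rw [pow_add]; exact Ideal.mul_mem_mul hy hz
      · linear_combination -z * huv
    · rintro w1 w2 ⟨x1, y1, hy1, h1⟩ ⟨x2, y2, hy2, h2⟩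
      exact ⟨x1 + x2, y1 + y2, Ideal.add_mem _ hy1 hy2, by linear_combination h1 + h2⟩
  induction j with
  | zero =>
    intro w hw
    obtain ⟨x, y, -, hxy⟩ := step 0 w hw
    exact ⟨r, hr, x, y, by simpa using hxy⟩
  | succ j ih =>
    intro w hw
    obtain ⟨x, y, hy, hxy⟩ := step (j + 1) w hw
    rw [show k - 1 + (j + 1) = k + j by omega] at hy
    obtain ⟨a, ha, x', y', h'⟩ := ih y hy
    refine ⟨a * r, by simp [ha, hr], a * x + π * x', y', ?_⟩
    linear_combination a * hxy + π * h'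

/-- a non-maximal prime is locally principal -/
lemma Reg2.prime_principal [Infinite K] [IsNoetherianRing A] [IsDomain A] (h : Reg2 φ s t)
    {P : Ideal A} (hP : P.IsPrime) (hle : P ≤ pt φ) (hne : P ≠ pt φ) :
    ∃ p ∈ P, ∀ q ∈ P, ∃ a, φ a ≠ 0 ∧ p ∣ a * q := by
  classical
  by_cases h0 : P = ⊥
  · refine ⟨0, P.zero_mem, fun q hq => ⟨1, by simp, ?_⟩⟩
    rw [h0, Ideal.mem_bot] at hq
    simp [hq]
  have hex : ∃ N, ¬ P ≤ pt φ ^ N := by
    by_contra hcon
    push Not at hcon
    apply h0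
    rw [eq_bot_iff, ← Ideal.iInf_pow_eq_bot_of_isDomain (pt φ) (pt_ne_top φ)]
    exact le_iInf hcon
  have hN := Nat.find_spec hex
  have hpos : Nat.find hex ≠ 0 := by
    intro h1
    rw [h1] at hN
    simp at hN
  obtain ⟨k, hk⟩ := Nat.exists_eq_succ_of_ne_zero hpos
  have hPk : P ≤ pt φ ^ k := by
    have := Nat.find_min hex (m := k) (by omega)
    exact not_not.mp this
  rw [hk] at hN
  obtain ⟨g, hg, hg'⟩ := SetLike.not_le_iff_exists.mp hN
  obtain ⟨π, hπ, -⟩ := h.exists_param (hPk hg) hg' ∅ (by simp)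
  obtain ⟨r, hr, hgen⟩ := hπ.gen
  have hrP : r ∉ P := fun hrP => hr (hle hrP)
  have hπP : π ∉ P := by
    intro hπP
    apply hne
    refine le_antisymm hle ?_
    have h1 : pt φ ^ k ≤ P := by
      intro q hq
      have h2 : r * q ∈ P := by
        refine (sup_le ?_ ?_ : _ ≤ P) (hgen q hq)
        · exact (Ideal.span_singleton_le_iff_mem _).mpr hg
        · exact (span_mul_le _ _).trans ((Ideal.span_singleton_le_iff_mem _).mpr hπP)
      exact (hP.mem_or_mem h2).resolve_left hrP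
    rcases k with _ | k
    · exact absurd (eq_top_iff.mpr (by simpa using h1)) hP.ne_top
    · exact (Ideal.IsPrime.pow_le_iff (Nat.succ_ne_zero k)).mp h1
  have hnak : P ≤ Ideal.span {g} ⊔ pt φ * P := by
    intro q hq
    obtain ⟨u, hu, v, hv, huv⟩ := Submodule.mem_sup.mp (hgen q (hPk hq))
    obtain ⟨y, -, rfl⟩ := Ideal.mem_span_singleton_mul.mp hv
    have hy : y ∈ P := by
      have h2 : π * y ∈ P := by
        have : π * y = r * q - u := by linear_combination huv
        rw [this]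
        exact P.sub_mem (P.mul_mem_left _ hq) ((Ideal.span_singleton_le_iff_mem _).mpr hg hu)
      exact (hP.mem_or_mem h2).resolve_left hπP
    have h3 : r * q ∈ Ideal.span {g} ⊔ pt φ * P := by
      rw [← huv]
      exact Submodule.add_mem_sup hu (Ideal.mul_mem_mul hπ.mem hy)
    obtain ⟨u', hu'⟩ := exists_inv_mod φ hr 1
    rw [pow_one] at hu'
    have : q = u' * (r * q) + (1 - u' * r) * q := by ring
    rw [this]
    exact Ideal.add_mem _ (Ideal.mul_mem_left _ _ h3)
      (Ideal.mem_sup_right (Ideal.mul_mem_mul hu' hq))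
  obtain ⟨a, ha, haP⟩ := nakayama φ hnak
  exact ⟨g, hg, fun q hq => ⟨a, ha, Ideal.mem_span_singleton.mp (haP q hq)⟩⟩

end Pool.Agent.MP_d2168f_ag

end

section

/-!
Dimension bound from the transcendence degree and the dichotomy at a regular rational point.
-/

namespace Pool.Agent.MP_d2168f_ag

variable {K A : Type*} [Field K] [CommRing A] [Algebra K A]

lemma indep_option {B C ι : Type*} [CommRing B] [IsDomain B] [Algebra K B] [CommRing C]
    [Algebra K C] (f : B →ₐ[K] C) (x : ι → B) (hx : AlgebraicIndependent K (f ∘ x)) {y : B}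
    (hy : f y = 0) (hy0 : y ≠ 0) :
    AlgebraicIndependent K (fun o : Option ι => o.elim y x) := by
  refine AlgebraicIndependent.option_iff.mpr ⟨hx.of_comp f, fun halg => ?_⟩
  apply Ideal.comap_ne_bot_of_algebraic_mem (I := RingHom.ker f) hy0 hy halg
  rw [eq_bot_iff]
  rintro ⟨z, hz⟩ hzf
  rw [Algebra.adjoin_range_eq_range_aeval] at hz
  obtain ⟨p, rfl⟩ := hz
  have h1 : f (MvPolynomial.aeval x p) = 0 := hzf
  have h2 : MvPolynomial.aeval (f ∘ x) p = 0 := by
    rw [← h1, ← AlgHom.comp_apply, MvPolynomial.comp_aeval]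
    rfl
  have h3 : p = 0 := hx.eq_zero_of_aeval_eq_zero p h2
  subst h3
  rw [Ideal.mem_bot]
  ext
  simp

lemma indep_option_quot {ι : Type*} {I J : Ideal A} (hI : I.IsPrime) (hIJ : I ≤ J) (x : ι → A)
    (hx : AlgebraicIndependent K (Ideal.Quotient.mkₐ K J ∘ x)) {y : A} (hy : y ∈ J)
    (hy0 : y ∉ I) :
    AlgebraicIndependent K (Ideal.Quotient.mkₐ K I ∘ fun o : Option ι => o.elim y x) := by
  have := indep_option (Ideal.Quotient.factorₐ K hIJ) (Ideal.Quotient.mkₐ K I ∘ x) hx
    (y := Ideal.Quotient.mkₐ K I y) (Ideal.Quotient.eq_zero_iff_mem.mpr hy)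
    (fun h => hy0 (Ideal.Quotient.eq_zero_iff_mem.mp h))
  have e : (Ideal.Quotient.mkₐ K I ∘ fun o : Option ι => o.elim y x)
      = fun o : Option ι => o.elim (Ideal.Quotient.mkₐ K I y) (Ideal.Quotient.mkₐ K I ∘ x) := by
    funext o
    cases o <;> rfl
  rw [e]
  exact this

lemma no_chain [IsDomain A] (hdep : ∀ u : Fin 3 → A, ¬ AlgebraicIndependent K u)
    {P Q M : Ideal A} (hP : P.IsPrime) (hQ : Q.IsPrime) (hM : M.IsPrime)
    (h0 : ⊥ < P) (h1 : P < Q) (h2 : Q < M) : False := by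
  obtain ⟨a1, ha1, ha1'⟩ := SetLike.exists_of_lt h0
  obtain ⟨a2, ha2, ha2'⟩ := SetLike.exists_of_lt h1
  obtain ⟨a3, ha3, ha3'⟩ := SetLike.exists_of_lt h2
  have : Nontrivial (A ⧸ M) := Ideal.Quotient.nontrivial_iff.mpr hM.ne_top
  have i0 : AlgebraicIndependent K (Ideal.Quotient.mkₐ K M ∘ (Empty.elim : Empty → A)) :=
    algebraicIndependent_empty_type_iff.mpr (algebraMap K (A ⧸ M)).injective
  have i1 := indep_option_quot hQ h2.le _ i0 ha3 ha3'
  have i2 := indep_option_quot hP h1.le _ i1 ha2 ha2'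
  have i3 := indep_option_quot Ideal.isPrime_bot h0.le _ i2 ha1 ha1'
  refine hdep _ ((i3.of_comp _).comp
    (![none, some none, some (some none)] : Fin 3 → Option (Option (Option Empty))) ?_)
  decide

lemma height_le_two [IsDomain A] (hdep : ∀ u : Fin 3 → A, ¬ AlgebraicIndependent K u)
    (M : Ideal A) [hM : M.IsPrime] : M.height ≤ (2 : ℕ) := by
  refine Ideal.height_le_iff.mpr fun Q hQ hQM => ?_
  have : Q.height ≤ (1 : ℕ) := by
    refine Ideal.height_le_iff.mpr fun P hP hPQ => ?_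
    have : P.height ≤ (0 : ℕ) := by
      refine Ideal.height_le_iff.mpr fun P' _ hP' => ?_
      exact (no_chain hdep hP hQ hM (lt_of_le_of_lt bot_le hP') hPQ hQM).elim
    exact lt_of_le_of_lt this (by norm_num)
  exact lt_of_le_of_lt this (by norm_num)

instance (φ : A →ₐ[K] K) : (pt φ).IsPrime := pt_isPrime φ

lemma exists_num (φ : A →ₐ[K] K) {x : Localization.AtPrime (pt φ)}
    (hx : x ∈ IsLocalRing.maximalIdeal (Localization.AtPrime (pt φ))) :
    ∃ s ∈ pt φ, x ∈ Ideal.span {algebraMap A (Localization.AtPrime (pt φ)) s} := by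
  obtain ⟨⟨s, u⟩, rfl⟩ := IsLocalization.mk'_surjective (pt φ).primeCompl x
  refine ⟨s, (IsLocalization.AtPrime.mk'_mem_maximal_iff _ (pt φ) s u).mp hx, ?_⟩
  simp only
  rw [IsLocalization.mk'_eq_mul_mk'_one]
  exact Ideal.mul_mem_right _ _ (Ideal.mem_span_singleton_self _)

lemma pull (φ : A →ₐ[K] K) {I : Ideal A}
    (hI : IsLocalRing.maximalIdeal (Localization.AtPrime (pt φ))
      ≤ I.map (algebraMap A (Localization.AtPrime (pt φ)))) {q : A} (hq : q ∈ pt φ) :
    ∃ a, φ a ≠ 0 ∧ a * q ∈ I := by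
  have h1 : algebraMap A (Localization.AtPrime (pt φ)) q
      ∈ IsLocalRing.maximalIdeal (Localization.AtPrime (pt φ)) :=
    (IsLocalization.AtPrime.to_map_mem_maximal_iff _ (pt φ) q).mpr hq
  obtain ⟨a, ha, haq⟩ := (IsLocalization.algebraMap_mem_map_algebraMap_iff
    (pt φ).primeCompl _ I q).mp (hI h1)
  exact ⟨a, ha, haq⟩

/-- a regular rational point of a surface: either the maximal ideal is locally principal or the
point is regular of dimension two -/
lemma dichotomy [IsDomain A] [IsNoetherianRing A]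
    (hdep : ∀ u : Fin 3 → A, ¬ AlgebraicIndependent K u) (φ : A →ₐ[K] K)
    (hreg : IsRegularLocalRing (Localization.AtPrime (pt φ))) :
    (∃ p ∈ pt φ, ∀ q ∈ pt φ, ∃ a, φ a ≠ 0 ∧ p ∣ a * q) ∨ ∃ s t, Reg2 φ s t := by
  classical
  set R := Localization.AtPrime (pt φ)
  have hdim := hreg.spanFinrank_maximalIdeal
  rw [IsLocalization.AtPrime.ringKrullDim_eq_height (pt φ) R] at hdim
  have hdim' : ((IsLocalRing.maximalIdeal R).spanFinrank : ℕ∞) = (pt φ).height := by
    exact_mod_cast hdim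
  obtain ⟨S, hS, hspan⟩ := Submodule.FG.exists_span_finset_card_eq_spanFinrank
    (IsNoetherian.noetherian (IsLocalRing.maximalIdeal R))
  have hSm : ∀ x ∈ S, x ∈ IsLocalRing.maximalIdeal R := fun x hx =>
    hspan ▸ Submodule.subset_span hx
  by_cases h1 : (pt φ).height ≤ 1
  · left
    have hc : S.card ≤ 1 := by
      rw [hS]
      have := hdim'.trans_le h1
      exact_mod_cast this
    obtain ⟨x, hx, hSx⟩ : ∃ x ∈ IsLocalRing.maximalIdeal R, ∀ y ∈ S, y = x := by
      rcases S.eq_empty_or_nonempty with rfl | ⟨x, hx⟩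
      · exact ⟨0, zero_mem _, by simp⟩
      · exact ⟨x, hSm x hx, fun y hy => Finset.card_le_one.mp hc y hy x hx⟩
    obtain ⟨p, hp, hxp⟩ := exists_num φ hx
    refine ⟨p, hp, fun q hq => ?_⟩
    obtain ⟨a, ha, haq⟩ := pull φ (I := Ideal.span {p}) (by
      rw [Ideal.map_span, Set.image_singleton, ← hspan, Submodule.span_le]
      intro y hy
      rw [hSx y hy]
      exact hxp) hq
    exact ⟨a, ha, Ideal.mem_span_singleton.mp haq⟩
  · right
    have hc : S.card ≤ 2 := by
      rw [hS]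
      have := hdim'.trans_le (height_le_two hdep (pt φ))
      exact_mod_cast this
    obtain ⟨x, hx, y, hy, hSxy⟩ : ∃ x ∈ IsLocalRing.maximalIdeal R,
        ∃ y ∈ IsLocalRing.maximalIdeal R, ∀ z ∈ S, z = x ∨ z = y := by
      rcases Nat.lt_or_ge S.card 2 with h | h
      · rcases S.eq_empty_or_nonempty with rfl | ⟨x, hx⟩
        · exact ⟨0, zero_mem _, 0, zero_mem _, by simp⟩
        · exact ⟨x, hSm x hx, x, hSm x hx, fun y hy =>
            Or.inl (Finset.card_le_one.mp (by omega) y hy x hx)⟩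
      · obtain ⟨x, y, -, rfl⟩ := Finset.card_eq_two.mp (le_antisymm hc h)
        exact ⟨x, hSm x (by simp), y, hSm y (by simp), by simp⟩
    obtain ⟨s, hs, hxs⟩ := exists_num φ hx
    obtain ⟨t, ht, hyt⟩ := exists_num φ hy
    refine ⟨s, t, hs, ht, fun q hq => ?_, fun π hπ k hk => h1 ?_⟩
    · obtain ⟨a, ha, haq⟩ := pull φ (I := Ideal.span {s, t}) (by
        rw [Ideal.map_span, Set.image_pair, ← hspan, Submodule.span_le]
        intro z hz
        rcases hSxy z hz with rfl | rfl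
        · exact Ideal.span_mono (by simp) hxs
        · exact Ideal.span_mono (by simp) hyt) hq
      exact cancel_unit φ ha (Ideal.mem_sup_left haq)
    · rw [pow_succ'] at hk
      obtain ⟨r, hr, hrk⟩ := nakayama φ hk
      refine Ideal.height_le_one_of_isPrincipal_of_mem_minimalPrimes (Ideal.span {π}) _
        ⟨⟨pt_isPrime φ, (Ideal.span_singleton_le_iff_mem _).mpr hπ⟩, ?_⟩
      rintro Q ⟨hQ, hπQ⟩ hQle
      have h2 : pt φ ^ k ≤ Q := fun q hq =>
        (hQ.mem_or_mem (hπQ (hrk q hq))).resolve_left (fun h => hr (hQle h))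
      rcases k with _ | k
      · exact absurd (eq_top_iff.mpr (by simpa using h2)) hQ.ne_top
      · exact (Ideal.IsPrime.pow_le_iff (Nat.succ_ne_zero k)).mp h2

end Pool.Agent.MP_d2168f_ag

end

section

/-!
The set of rational points where a representation as a sum of squares has a pole is finite.
-/

namespace Pool.Agent.MP_d2168f_ag

variable {K A F : Type*} [Field K] [CommRing A] [Algebra K A] [Field F] [Algebra A F]

/-- `r` comes from `A` -/
def Int (A : Type*) [CommRing A] [Algebra A F] (r : F) : Prop := ∃ a : A, algebraMap A F a = r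

lemma Int.map (a : A) : Int A (algebraMap A F a) := ⟨a, rfl⟩

lemma Int.add {r s : F} (hr : Int A r) (hs : Int A s) : Int A (r + s) := by
  obtain ⟨a, rfl⟩ := hr
  obtain ⟨b, rfl⟩ := hs
  exact ⟨a + b, by simp⟩

lemma Int.mul {r s : F} (hr : Int A r) (hs : Int A s) : Int A (r * s) := by
  obtain ⟨a, rfl⟩ := hr
  obtain ⟨b, rfl⟩ := hs
  exact ⟨a * b, by simp⟩

lemma Int.neg {r : F} (hr : Int A r) : Int A (-r) := by
  obtain ⟨a, rfl⟩ := hr
  exact ⟨-a, by simp⟩

lemma Int.sub {r s : F} (hr : Int A r) (hs : Int A s) : Int A (r - s) := by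
  rw [sub_eq_add_neg]; exact hr.add hs.neg

lemma Int.sum {ι : Type*} (S : Finset ι) {r : ι → F} (hr : ∀ i ∈ S, Int A (r i)) :
    Int A (∑ i ∈ S, r i) := by
  classical
  induction S using Finset.induction_on with
  | empty => exact ⟨0, by simp⟩
  | insert i S hi ih =>
    rw [Finset.sum_insert hi]
    exact (hr i (by simp)).add (ih fun j hj => hr j (by simp [hj]))

/-- the ideal of common denominators of a family -/
def den (A : Type*) [CommRing A] [Algebra A F] {ι : Type*} (e : ι → F) : Ideal A where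
  carrier := {d | ∀ i, Int A (algebraMap A F d * e i)}
  add_mem' := fun {a b} ha hb i => by
    rw [map_add, add_mul]; exact (ha i).add (hb i)
  zero_mem' := fun i => ⟨0, by simp⟩
  smul_mem' := fun c d hd i => by
    rw [smul_eq_mul, map_mul, mul_assoc]; exact (Int.map c).mul (hd i)

lemma mem_den {ι : Type*} {e : ι → F} {d : A} :
    d ∈ den A e ↔ ∀ i, Int A (algebraMap A F d * e i) := Iff.rfl

variable [IsDomain A] [IsFractionRing A F]

lemma den_ne_bot {ι : Type*} [Finite ι] (e : ι → F) : den A e ≠ ⊥ := by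
  obtain ⟨b, hb⟩ := IsLocalization.exist_integer_multiples_of_finite (nonZeroDivisors A) e
  intro h
  have : (b : A) ∈ den A e := fun i => by
    obtain ⟨a, ha⟩ := hb i
    exact ⟨a, by rw [ha, Algebra.smul_def]⟩
  rw [h, Ideal.mem_bot] at this
  exact nonZeroDivisors.coe_ne_zero b this

omit [IsDomain A] in
lemma num_sq {n : ℕ} {e : Fin n → F} {f d : A} (hf : ∑ i, e i ^ 2 = algebraMap A F f)
    {v : Fin n → A} (hv : ∀ i, algebraMap A F (v i) = algebraMap A F d * e i) :
    ∑ i, v i ^ 2 = d ^ 2 * f := by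
  apply IsFractionRing.injective A F
  simp only [map_sum, map_pow, map_mul, hv, mul_pow]
  rw [← Finset.mul_sum, hf]

variable [IsNoetherianRing A]

/-- the denominator ideal is not contained in a locally principal real ideal -/
lemma not_den_le {n : ℕ} {e : Fin n → F} {f : A} (hf : ∑ i, e i ^ 2 = algebraMap A F f)
    (φ : A →ₐ[K] K) {Q : Ideal A} (hQ : Q ≤ pt φ)
    (hreal : ∀ v : Fin n → A, ∑ i, v i ^ 2 ∈ Q → ∀ i, v i ∈ Q)
    {p : A} (hp : p ∈ Q) (hgen : ∀ q ∈ Q, ∃ a, φ a ≠ 0 ∧ p ∣ a * q) : ¬ den A e ≤ Q := by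
  classical
  intro hle
  apply den_ne_bot (A := A) e
  rw [eq_bot_iff, ← Ideal.iInf_pow_eq_bot_of_isDomain (pt φ) (pt_ne_top φ)]
  refine le_iInf fun N => ?_
  induction N with
  | zero => simp
  | succ N ih =>
    intro d hd
    obtain ⟨a, ha, d', hd'⟩ := hgen d (hle hd)
    by_cases hp0 : p = 0
    · refine cancel_unit' φ ha ?_
      rw [hd', hp0, zero_mul]
      exact zero_mem _
    choose v hv using hd
    have h1 : ∑ i, v i ^ 2 ∈ Q := by
      rw [num_sq hf hv, pow_two, mul_assoc]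
      exact Q.mul_mem_right _ (hle fun i => ⟨v i, hv i⟩)
    choose b hb v' hv' using fun i => hgen (v i) (hreal v h1 i)
    have h2 : (∏ i, b i) * d' ∈ den A e := by
      intro i
      refine ⟨a * (∏ j ∈ Finset.univ.erase i, b j) * v' i, ?_⟩
      have hp' : algebraMap A F p ≠ 0 := by simpa using hp0
      apply mul_left_cancel₀ hp'
      rw [← Finset.mul_prod_erase Finset.univ b (Finset.mem_univ i)]
      have e1 := congrArg (algebraMap A F) hd'
      have e2 := congrArg (algebraMap A F) (hv' i)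
      have e3 := hv i
      simp only [map_mul] at e1 e2 ⊢
      set B := algebraMap A F (∏ j ∈ Finset.univ.erase i, b j)
      linear_combination (-algebraMap A F a * B) * e2 + (algebraMap A F (b i) * B * e i) * e1
        + (algebraMap A F a * B * algebraMap A F (b i)) * e3
    refine cancel_unit' φ (a := (∏ i, b i) * a) ?_ ?_
    · simp only [map_mul, map_prod]
      exact mul_ne_zero (Finset.prod_ne_zero_iff.mpr fun i _ => hb i) ha
    · have : (∏ i, b i) * a * d = p * ((∏ i, b i) * d') := by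
        linear_combination (∏ i, b i) * hd'
      rw [this, pow_succ']
      exact Ideal.mul_mem_mul (hQ hp) (ih h2)

omit [IsDomain A] [IsNoetherianRing A] in
lemma pt_real (hK : RealF K) (φ : A →ₐ[K] K) {n : ℕ} (v : Fin n → A)
    (hv : ∑ i, v i ^ 2 ∈ pt φ) (i : Fin n) : v i ∈ pt φ := by
  rw [mem_pt] at hv ⊢
  refine hK n (fun i => φ (v i)) ?_ i
  simpa using hv

/-- a pole is a two-dimensional regular point -/
lemma reg2_of_bad (hK : RealF K) (hdep : ∀ u : Fin 3 → A, ¬ AlgebraicIndependent K u)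
    {n : ℕ} {e : Fin n → F} {f : A} (hf : ∑ i, e i ^ 2 = algebraMap A F f) (φ : A →ₐ[K] K)
    (hreg : IsRegularLocalRing (Localization.AtPrime (pt φ))) (hbad : den A e ≤ pt φ) :
    ∃ s t, Reg2 φ s t := by
  rcases dichotomy hdep φ hreg with ⟨p, hp, hgen⟩ | h
  · exact absurd hbad (not_den_le hf φ le_rfl (pt_real hK φ) hp hgen)
  · exact h

omit [IsDomain A] in
/-- the points above an ideal all of whose primes below a point equal the point -/
lemma finite_of_minimal (I : Ideal A) (T : Set (A →ₐ[K] K))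
    (hT : ∀ φ ∈ T, I ≤ pt φ ∧ ∀ Q : Ideal A, Q.IsPrime → I ≤ Q → Q ≤ pt φ → Q = pt φ) :
    T.Finite := by
  refine Set.Finite.of_finite_image (f := fun φ => pt φ)
    (I.finite_minimalPrimes_of_isNoetherianRing.subset ?_) ?_
  · rintro _ ⟨φ, hφ, rfl⟩
    refine ⟨⟨pt_isPrime φ, (hT φ hφ).1⟩, ?_⟩
    rintro Q ⟨hQ, hIQ⟩ hle
    exact ((hT φ hφ).2 Q hQ hIQ hle).ge
  · intro φ _ ψ _ h
    exact eq_of_pt_le (le_of_eq h)

lemma finite_bad (hK : RealF K) (hdep : ∀ u : Fin 3 → A, ¬ AlgebraicIndependent K u)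
    (hreg : ∀ φ : A →ₐ[K] K, IsRegularLocalRing (Localization.AtPrime (pt φ)))
    {n : ℕ} {e : Fin n → F} {f : A} (hf : ∑ i, e i ^ 2 = algebraMap A F f) :
    {φ : A →ₐ[K] K | den A e ≤ pt φ}.Finite := by
  have := hK.infinite
  have key : ∀ P ∈ (den A e).minimalPrimes, {φ : A →ₐ[K] K | P ≤ pt φ}.Finite := by
    intro P hP
    have hPp : P.IsPrime := hP.1.1
    have hDP : den A e ≤ P := hP.1.2
    have hP0 : ⊥ < P := lt_of_lt_of_le (bot_lt_iff_ne_bot.mpr (den_ne_bot e)) hDP
    by_contra hinf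
    have hinf' : {φ : A →ₐ[K] K | P ≤ pt φ}.Infinite := hinf
    obtain ⟨φ, hφ⟩ := hinf'.nonempty
    have hne : P ≠ pt φ := by
      intro h
      apply hinf
      refine (Set.finite_singleton φ).subset fun ψ hψ => ?_
      exact (eq_of_pt_le (h ▸ hψ)).symm
    obtain ⟨s, t, hst⟩ := reg2_of_bad hK hdep hf φ (hreg φ) (hDP.trans hφ)
    obtain ⟨p, hp, hgen⟩ := hst.prime_principal hPp hφ hne
    refine not_den_le hf φ hφ (fun v hv i => ?_) hp hgen hDP
    by_contra hi
    apply hinf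
    refine finite_of_minimal (P ⊔ Ideal.span {v i}) _ fun ψ hψ => ⟨?_, ?_⟩
    · exact sup_le hψ ((Ideal.span_singleton_le_iff_mem _).mpr (pt_real hK ψ v (hψ hv) i))
    · intro Q hQ hIQ hQψ
      by_contra hQne
      refine no_chain hdep hPp hQ (pt_isPrime ψ) hP0 ?_ (lt_of_le_of_ne hQψ hQne)
      refine lt_of_le_of_ne (le_sup_left.trans hIQ) fun h => hi ?_
      rw [h]
      exact hIQ (Ideal.mem_sup_right (Ideal.mem_span_singleton_self _))
  refine ((den A e).finite_minimalPrimes_of_isNoetherianRing.biUnion key).subset ?_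
  intro φ hφ
  obtain ⟨P, hP, hPφ⟩ := Ideal.exists_minimalPrimes_le (J := pt φ) hφ
  exact Set.mem_biUnion hP hPφ

end Pool.Agent.MP_d2168f_ag

end

section

/-!
Facts on the rational function field in two variables over a formally real field.
-/

namespace Pool.Agent.MP_d2168f_ag

open Polynomial

variable {K : Type*} [Field K]

lemma poly_sq_add_sq (hK : RealF K) {p q : K[X]} (h : p ^ 2 + q ^ 2 = 0) : p = 0 ∧ q = 0 := by
  have := hK.infinite
  have key : ∀ c, p.eval c = 0 ∧ q.eval c = 0 := by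
    intro c
    have h1 := hK 2 ![p.eval c, q.eval c] (by
      have := congrArg (eval c) h
      simpa [Fin.sum_univ_two] using this)
    exact ⟨h1 0, h1 1⟩
  exact ⟨Polynomial.funext fun c => by simpa using (key c).1,
    Polynomial.funext fun c => by simpa using (key c).2⟩

lemma not_sq (hK : RealF K) {N W : K[X]} (h : (1 + X ^ 2) * N ^ 2 = W ^ 2) : N = 0 := by
  have := hK.charZero
  by_contra hN
  obtain ⟨w, rfl⟩ : N ∣ W :=
    (IsIntegrallyClosed.pow_dvd_pow_iff two_ne_zero).mp ⟨1 + X ^ 2, by rw [← h]; ring⟩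
  have h1 : (w - X) * (w + X) = 1 := by
    apply mul_left_cancel₀ (pow_ne_zero 2 hN)
    linear_combination -h
  obtain ⟨a, -, ha⟩ := Polynomial.isUnit_iff.mp (IsUnit.of_mul_eq_one _ h1)
  obtain ⟨b, -, hb⟩ := Polynomial.isUnit_iff.mp (IsUnit.of_mul_eq_one_right _ h1)
  have h2 : (C 2 * X : K[X]) = C (b - a) := by
    rw [map_sub, ha, hb, map_ofNat]
    ring
  have := congrArg (fun p => coeff p 1) h2
  simp [coeff_C] at this

/-- the quadric `Y ^ 2 + 1 + X ^ 2` -/
noncomputable def quad (K : Type*) [Field K] : K[X][X] := X ^ 2 + C (1 + X ^ 2)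

lemma quad_monic : (quad K).Monic := monic_X_pow_add_C _ two_ne_zero

lemma quad_natDegree : (quad K).natDegree = 2 := natDegree_X_pow_add_C

lemma exists_red (p : K[X][X]) : ∃ a b : K[X], quad K ∣ p - (C b * X + C a) := by
  have h1 : (p %ₘ quad K).natDegree ≤ 1 := by
    have := natDegree_modByMonic_lt p (quad_monic (K := K)) (by
      intro h
      have := quad_natDegree (K := K)
      rw [h] at this
      simp at this)
    rw [quad_natDegree] at this
    omega
  refine ⟨(p %ₘ quad K).coeff 0, (p %ₘ quad K).coeff 1, p /ₘ quad K, ?_⟩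
  rw [← eq_X_add_C_of_natDegree_le_one h1]
  linear_combination -modByMonic_add_div p (quad K)

lemma quad_dvd (hK : RealF K) {p q : K[X][X]} (h : quad K ∣ p ^ 2 + q ^ 2) :
    quad K ∣ p ∧ quad K ∣ q := by
  have := hK.charZero
  obtain ⟨p0, p1, p', hp⟩ := exists_red p
  obtain ⟨q0, q1, q', hq⟩ := exists_red q
  set α : K[X] := p0 ^ 2 + q0 ^ 2 - (1 + X ^ 2) * (p1 ^ 2 + q1 ^ 2) with hα
  set β : K[X] := 2 * (p0 * p1 + q0 * q1) with hβ
  have h1 : quad K ∣ C β * X + C α := by
    have e : C β * X + C α = (p ^ 2 + q ^ 2) - quad K * (p' * (p + (C p1 * X + C p0))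
        + q' * (q + (C q1 * X + C q0)) + C (p1 ^ 2 + q1 ^ 2)) := by
      rw [hα, hβ]
      simp only [map_add, map_mul, map_pow, map_sub, map_ofNat, map_one]
      have hq0 : quad K = X ^ 2 + (1 + C X ^ 2) := by simp [quad]
      linear_combination (-(p + (C p1 * X + C p0))) * hp - (q + (C q1 * X + C q0)) * hq
        + (C p1 ^ 2 + C q1 ^ 2) * hq0
    rw [e]
    exact dvd_sub h (dvd_mul_right _ _)
  have h2 : C β * X + C α = 0 := by
    refine eq_zero_of_dvd_of_natDegree_lt h1 ?_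
    rw [quad_natDegree]
    exact lt_of_le_of_lt natDegree_linear_le (by norm_num)
  have hα0 : α = 0 := by simpa using congrArg (fun p => coeff p 0) h2
  have hβ0 : β = 0 := by simpa [coeff_C] using congrArg (fun p => coeff p 1) h2
  have hβ1 : p0 * p1 + q0 * q1 = 0 := by
    rw [hβ] at hβ0
    exact (mul_eq_zero.mp hβ0).resolve_left two_ne_zero
  have hN : p1 ^ 2 + q1 ^ 2 = 0 := by
    refine not_sq hK (W := p0 * q1 - q0 * p1) ?_
    rw [hα] at hα0
    linear_combination (-(p1 ^ 2 + q1 ^ 2)) * hα0 + (p0 * p1 + q0 * q1) * hβ1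
  obtain ⟨rfl, rfl⟩ := poly_sq_add_sq hK hN
  obtain ⟨rfl, rfl⟩ := poly_sq_add_sq hK (p := p0) (q := q0) (by simpa [hα] using hα0)
  exact ⟨⟨p', by simpa using hp⟩, ⟨q', by simpa using hq⟩⟩

lemma quad_not_two (hK : RealF K) (n : ℕ) : ∀ p q r : K[X][X], r.natDegree = n →
    p ^ 2 + q ^ 2 = quad K * r ^ 2 → r = 0 := by
  induction n using Nat.strong_induction_on with
  | _ n ih =>
    intro p q r hr h
    have hq0 : quad K ≠ 0 := quad_monic.ne_zero
    obtain ⟨⟨p', rfl⟩, ⟨q', rfl⟩⟩ := quad_dvd hK (p := p) (q := q) ⟨_, h⟩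
    have h1 : r ^ 2 + 0 ^ 2 = quad K * (p' ^ 2 + q' ^ 2) := by
      apply mul_left_cancel₀ hq0
      linear_combination -h
    obtain ⟨⟨r', rfl⟩, -⟩ := quad_dvd hK (p := r) (q := 0) ⟨_, h1⟩
    by_cases hr' : r' = 0
    · simp [hr']
    have h2 : p' ^ 2 + q' ^ 2 = quad K * r' ^ 2 := by
      apply mul_left_cancel₀ hq0
      linear_combination -h1
    rw [natDegree_mul hq0 hr', quad_natDegree] at hr
    exact absurd (ih r'.natDegree (by omega) p' q' r' rfl h2) hr'

/-- `1 + x² + y²` is not a sum of two squares of rational functions -/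
lemma not_two_sq (hK : RealF K) (a b : FractionRing (MvPolynomial (Fin 2) K)) :
    a ^ 2 + b ^ 2 ≠ 1 ^ 2 + algebraMap (MvPolynomial (Fin 2) K) _ (MvPolynomial.X 0) ^ 2
      + algebraMap (MvPolynomial (Fin 2) K) _ (MvPolynomial.X 1) ^ 2 := by
  intro h
  obtain ⟨r, hr⟩ := IsLocalization.exist_integer_multiples_of_finite
    (nonZeroDivisors (MvPolynomial (Fin 2) K)) ![a, b]
  obtain ⟨p, hp⟩ := hr 0
  obtain ⟨q, hq⟩ := hr 1
  simp only [Algebra.smul_def, Matrix.cons_val_zero, Matrix.cons_val_one] at hp hq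
  have h1 : p ^ 2 + q ^ 2 = (1 + MvPolynomial.X 0 ^ 2 + MvPolynomial.X 1 ^ 2)
      * (r : MvPolynomial (Fin 2) K) ^ 2 := by
    apply IsFractionRing.injective _ (FractionRing (MvPolynomial (Fin 2) K))
    simp only [map_add, map_mul, map_pow, map_one, hp, hq]
    linear_combination (algebraMap (MvPolynomial (Fin 2) K)
      (FractionRing (MvPolynomial (Fin 2) K)) r) ^ 2 * h
  let θ := (Polynomial.Bivariate.equivMvPolynomial K).symm
  have h2 := congrArg θ h1
  simp only [map_add, map_mul, map_pow, map_one, θ, Bivariate.equivMvPolynomial_symm_X_0,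
    Bivariate.equivMvPolynomial_symm_X_1] at h2
  have h3 := quad_not_two hK _ (θ p) (θ q) (θ r) rfl (by
    rw [h2]
    simp only [quad, map_add, map_one, map_pow, θ]
    ring)
  exact nonZeroDivisors.coe_ne_zero r (θ.injective (h3.trans (map_zero θ).symm))

lemma not_indep (u : Fin 3 → FractionRing (MvPolynomial (Fin 2) K)) :
    ¬ AlgebraicIndependent K u := by
  intro hu
  have h1 := hu.lift_cardinalMk_le_trdeg
  have : Algebra.IsAlgebraic (MvPolynomial (Fin 2) K) (FractionRing (MvPolynomial (Fin 2) K)) :=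
    IsLocalization.isAlgebraic _ (nonZeroDivisors (MvPolynomial (Fin 2) K))
  rw [← trdeg_add_eq K (MvPolynomial (Fin 2) K), trdeg_eq_zero (R := MvPolynomial (Fin 2) K),
    add_zero,
    MvPolynomial.trdeg_of_isDomain] at h1
  simp at h1
  norm_cast at h1

/-- a finitely generated subalgebra of a rational function field has a rational point -/
lemma exists_point [Infinite K] {B σ : Type*} [CommRing B] [Algebra K B] [Algebra.FiniteType K B]
    (j : B →ₐ[K] FractionRing (MvPolynomial σ K)) : Nonempty (B →ₐ[K] K) := by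
  obtain ⟨S, hS⟩ := (Algebra.FiniteType.out : (⊤ : Subalgebra K B).FG)
  obtain ⟨r, hr⟩ := IsLocalization.exist_integer_multiples_of_finite
    (nonZeroDivisors (MvPolynomial σ K)) (fun s : S => j s)
  obtain ⟨a, ha⟩ : ∃ a : σ → K, MvPolynomial.eval a (r : MvPolynomial σ K) ≠ 0 := by
    by_contra hcon
    push Not at hcon
    exact nonZeroDivisors.coe_ne_zero r (MvPolynomial.funext fun a => by simpa using hcon a)
  let M : Submonoid (MvPolynomial σ K) := Submonoid.powers (r : MvPolynomial σ K)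
  have hM : M ≤ nonZeroDivisors (MvPolynomial σ K) := Submonoid.powers_le.mpr r.2
  let T := Localization.subalgebra.ofField (FractionRing (MvPolynomial σ K)) M hM
  have hT : ∀ b, j b ∈ T.restrictScalars K := by
    have : (⊤ : Subalgebra K B) ≤ (T.restrictScalars K).comap j := by
      rw [← hS, Algebra.adjoin_le_iff]
      intro s hs
      obtain ⟨p, hp⟩ := hr ⟨s, hs⟩
      refine ⟨p, r, Submonoid.mem_powers _, ?_⟩
      have h0 : algebraMap (MvPolynomial σ K) (FractionRing (MvPolynomial σ K)) r ≠ 0 := by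
        simp
      rw [hp, Algebra.smul_def]
      field_simp
      rfl
    exact fun b => this (Algebra.mem_top)
  let ev : T →ₐ[K] K := IsLocalization.liftAlgHom (M := M) (f := MvPolynomial.aeval a) (by
    rintro ⟨_, n, rfl⟩
    simpa using fun h => absurd h ha)
  exact ⟨ev.comp (j.codRestrict (T.restrictScalars K) hT)⟩

end Pool.Agent.MP_d2168f_ag

end
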